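import Pool.Agent.H908R3.Vir.Crit2

set_option autoImplicit false

namespace Pool.Agent.H908R3.Vir

open Complex Filter Topology

/-- a positive function on the line cannot be strictly concave -/
lemma no_concave {f f' f'' : ℝ → ℝ} (h1 : ∀ t, HasDerivAt f (f' t) t)
    (h2 : ∀ t, HasDerivAt f' (f'' t) t) (hpos : ∀ t, 0 < f t) (hneg : ∀ t, f'' t < 0) : False := by
  have hanti : StrictAnti f' := strictAnti_of_deriv_neg (fun x => by rw [(h2 x).deriv]; exact hneg x)
  have hex : ∃ t0, f' t0 ≠ 0 := by
    by_contra hcon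
    push Not at hcon
    have := hanti (show (0:ℝ) < 1 by norm_num)
    rw [hcon 0, hcon 1] at this
    exact lt_irrefl _ this
  obtain ⟨t0, ht0⟩ := hex
  have hcont : Continuous f := continuous_iff_continuousAt.2 fun t => (h1 t).continuousAt
  rcases lt_or_gt_of_ne ht0 with hs | hs
  · -- negative slope
    have hmono : AntitoneOn (fun t => f t - f' t0 * t) (Set.Ici t0) := by
      apply antitoneOn_of_deriv_nonpos (convex_Ici t0)
      · exact (hcont.sub (by fun_prop)).continuousOn
      · intro x _
        exact ((h1 x).sub ((hasDerivAt_id x).const_mul (f' t0))).differentiableAt.differentiableWithinAt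
      · intro x hx
        rw [interior_Ici] at hx
        have : HasDerivAt (fun t => f t - f' t0 * t) (f' x - f' t0 * 1) x :=
          (h1 x).sub ((hasDerivAt_id x).const_mul (f' t0))
        rw [this.deriv]
        have := hanti hx
        linarith
    have hf0 := hpos t0
    have hlt : 0 < (f t0 + 1) / (- f' t0) := div_pos (by linarith) (by linarith)
    have := hmono (show t0 ∈ Set.Ici t0 from le_refl t0)
      (show t0 + (f t0 + 1) / (- f' t0) ∈ Set.Ici t0 from by
        simp only [Set.mem_Ici]; linarith) (by linarith)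
    simp only at this
    have e : f' t0 * (t0 + (f t0 + 1) / (- f' t0)) = f' t0 * t0 - (f t0 + 1) := by
      field_simp
      ring
    rw [e] at this
    have := hpos (t0 + (f t0 + 1) / (- f' t0))
    linarith
  · have hmono : MonotoneOn (fun t => f t - f' t0 * t) (Set.Iic t0) := by
      apply monotoneOn_of_deriv_nonneg (convex_Iic t0)
      · exact (hcont.sub (by fun_prop)).continuousOn
      · intro x _
        exact ((h1 x).sub ((hasDerivAt_id x).const_mul (f' t0))).differentiableAt.differentiableWithinAt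
      · intro x hx
        rw [interior_Iic] at hx
        have : HasDerivAt (fun t => f t - f' t0 * t) (f' x - f' t0 * 1) x :=
          (h1 x).sub ((hasDerivAt_id x).const_mul (f' t0))
        rw [this.deriv]
        have := hanti hx
        linarith
    have hf0 := hpos t0
    have hlt : 0 < (f t0 + 1) / (f' t0) := div_pos (by linarith) (by linarith)
    have := hmono (show t0 - (f t0 + 1) / (f' t0) ∈ Set.Iic t0 from by
        simp only [Set.mem_Iic]; linarith) (show t0 ∈ Set.Iic t0 from le_refl t0) (by linarith)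
    simp only at this
    have e : f' t0 * (t0 - (f t0 + 1) / (f' t0)) = f' t0 * t0 - (f t0 + 1) := by
      field_simp
    rw [e] at this
    have := hpos (t0 - (f t0 + 1) / (f' t0))
    linarith

/-- passing to the limit in a family of differentiable curves with uniformly Lipschitz derivative -/
theorem lim_deriv {E : Type*} [NormedAddCommGroup E] [NormedSpace ℝ E] {F : Filter ℕ} [F.NeBot]
    {f g : ℕ → ℝ → E} {f0 g0 : ℝ → E} {L : ℝ}
    (hd : ∀ n t, HasDerivAt (f n) (g n t) t)
    (hL : ∀ n s t, ‖g n s - g n t‖ ≤ L * |s - t|)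
    (hf : ∀ t, Tendsto (fun n => f n t) F (𝓝 (f0 t)))
    (hg : ∀ t, Tendsto (fun n => g n t) F (𝓝 (g0 t))) (t : ℝ) : HasDerivAt f0 (g0 t) t := by
  have hL0 : 0 ≤ L := by
    have := hL 0 1 0
    have h2 := norm_nonneg (g 0 1 - g 0 0)
    simp at this
    linarith
  have key : ∀ s, ‖f0 s - f0 t - (s - t) • g0 t‖ ≤ L * |s - t| * |s - t| := by
    intro s
    have hn : ∀ n, ‖f n s - f n t - (s - t) • g n t‖ ≤ L * |s - t| * |s - t| := by
      intro n
      have := (convex_uIcc t s).norm_image_sub_le_of_norm_hasDerivWithin_le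
        (f := fun x => f n x - x • g n t) (f' := fun x => g n x - g n t) (C := L * |s - t|)
        (x := t) (y := s)
        (fun x _ => by
          have h : HasDerivAt (fun x => f n x - x • g n t) (g n x - (1:ℝ) • g n t) x :=
            (hd n x).sub ((hasDerivAt_id x).smul_const (g n t))
          rw [one_smul] at h
          exact h.hasDerivWithinAt)
        (fun x hx => by
          refine (hL n x t).trans ?_
          apply mul_le_mul_of_nonneg_left _ hL0
          have := Set.abs_sub_left_of_mem_uIcc hx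
          exact this)
        Set.left_mem_uIcc Set.right_mem_uIcc
      calc ‖f n s - f n t - (s - t) • g n t‖ = ‖(f n s - s • g n t) - (f n t - t • g n t)‖ := by
            congr 1; rw [sub_smul]; abel
        _ ≤ L * |s - t| * ‖s - t‖ := this
        _ = L * |s - t| * |s - t| := by rw [Real.norm_eq_abs]
    have hlim : Tendsto (fun n => ‖f n s - f n t - (s - t) • g n t‖) F
        (𝓝 ‖f0 s - f0 t - (s - t) • g0 t‖) :=
      (((hf s).sub (hf t)).sub ((hg t).const_smul (s - t))).norm
    exact le_of_tendsto hlim (Eventually.of_forall hn)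
  rw [hasDerivAt_iff_isLittleO]
  have h1 : (fun s => f0 s - f0 t - (s - t) • g0 t) =O[𝓝 t] fun s => (s - t) ^ 2 := by
    apply Asymptotics.IsBigO.of_bound L
    filter_upwards with s
    rw [norm_pow, Real.norm_eq_abs]
    calc _ ≤ _ := key s
      _ = _ := by ring
  refine h1.trans_isLittleO ?_
  have h2 : (fun s : ℝ => (s - t) ^ 2) = fun s => (s - t) * (s - t) := by
    funext s; ring
  rw [h2]
  have h3 : (fun s : ℝ => (s - t)) =o[𝓝 t] fun _ => (1:ℝ) := by
    rw [Asymptotics.isLittleO_one_iff]
    have : Tendsto (fun s : ℝ => s - t) (𝓝 t) (𝓝 (t - t)) := (continuous_id.sub continuous_const).tendsto t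
    simpa using this
  simpa using h3.mul_isBigO (Asymptotics.isBigO_refl (fun s : ℝ => (s - t)) (𝓝 t))

lemma hasDerivAt_re {x : ℝ → ℂ} {x' : ℂ} {t : ℝ} (h : HasDerivAt x x' t) :
    HasDerivAt (fun s => (x s).re) x'.re t := by
  exact Complex.reCLM.hasFDerivAt.comp_hasDerivAt t h

lemma hasDerivAt_im {x : ℝ → ℂ} {x' : ℂ} {t : ℝ} (h : HasDerivAt x x' t) :
    HasDerivAt (fun s => (x s).im) x'.im t := by
  exact Complex.imCLM.hasFDerivAt.comp_hasDerivAt t h

lemma hasDerivAt_dot {x y : ℝ → ℂ} {x' y' : ℂ} {t : ℝ} (hx : HasDerivAt x x' t)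
    (hy : HasDerivAt y y' t) :
    HasDerivAt (fun s => dot (x s) (y s)) (dot x' (y t) + dot (x t) y') t := by
  have h : HasDerivAt (fun s => (x s).re * (y s).re + (x s).im * (y s).im)
      (x'.re * (y t).re + (x t).re * y'.re + (x'.im * (y t).im + (x t).im * y'.im)) t :=
    ((hasDerivAt_re hx).mul (hasDerivAt_re hy)).add ((hasDerivAt_im hx).mul (hasDerivAt_im hy))
  exact h.congr_deriv (by unfold dot; ring)

lemma hasDerivAt_crs {x y : ℝ → ℂ} {x' y' : ℂ} {t : ℝ} (hx : HasDerivAt x x' t)
    (hy : HasDerivAt y y' t) :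
    HasDerivAt (fun s => crs (x s) (y s)) (crs x' (y t) + crs (x t) y') t := by
  have h : HasDerivAt (fun s => (x s).re * (y s).im - (x s).im * (y s).re)
      (x'.re * (y t).im + (x t).re * y'.im - (x'.im * (y t).re + (x t).im * y'.re)) t :=
    ((hasDerivAt_re hx).mul (hasDerivAt_im hy)).sub ((hasDerivAt_im hx).mul (hasDerivAt_re hy))
  exact h.congr_deriv (by unfold crs; ring)

lemma dot_comm' (x y : ℂ) : dot x y = dot y x := by unfold dot; ring

lemma hasDerivAt_norm' {p : ℝ → ℂ} {w : ℂ} {t : ℝ} (hp : HasDerivAt p w t) (h0 : p t ≠ 0) :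
    HasDerivAt (fun s => ‖p s‖) (dot (p t) w / ‖p t‖) t := by
  have h1 := hasDerivAt_dot hp hp
  have hpos : 0 < ‖p t‖ := norm_pos_iff.2 h0
  have h2 : dot (p t) (p t) ≠ 0 := by rw [dot_self]; positivity
  have h3 := h1.sqrt h2
  have e : (fun s => ‖p s‖) = fun s => √(dot (p s) (p s)) := by
    funext s; rw [dot_self, Real.sqrt_sq (norm_nonneg _)]
  rw [e]
  convert h3 using 1
  rw [dot_self, Real.sqrt_sq (norm_nonneg _), dot_comm' w]
  field_simp
  ring

end Pool.Agent.H908R3.Vir
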