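import Pool.Agent.H908R3.Vir.Static

set_option autoImplicit false

namespace Pool.Agent.H908R3.Vir

open Complex

/-- acceleration of a body at `a` due to bodies at `b`, `c`. -/
noncomputable def acc (m : ℝ) (a b c : ℂ) : ℂ :=
  (m / ‖b - a‖ ^ 3) • (b - a) + (m / ‖c - a‖ ^ 3) • (c - a)

/-- the force function divided by the common mass -/
noncomputable def U (m : ℝ) (a b c : ℂ) : ℝ :=
  m * (1 / ‖b - a‖ + 1 / ‖c - b‖ + 1 / ‖a - c‖)

/-- Contribution of one pair to the second derivative of `-U / m`. -/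
noncomputable def pairDD (p w α : ℂ) : ℝ :=
  (dot w w + dot p α) / ‖p‖ ^ 3 - 3 * dot p w ^ 2 / ‖p‖ ^ 5

structure Crit (m : ℝ) (a b c va vb vc : ℂ) : Prop where
  mpos : 0 < m
  sum : a + b + c = 0
  sumv : va + vb + vc = 0
  I1 : dot a va + dot b vb + dot c vc = 0
  J : crs a va + crs b vb + crs c vc = 0
  U1 : dot (b - a) (vb - va) / ‖b - a‖ ^ 3 + dot (c - b) (vc - vb) / ‖c - b‖ ^ 3
    + dot (a - c) (va - vc) / ‖a - c‖ ^ 3 = 0
  U2 : pairDD (b - a) (vb - va) (acc m b c a - acc m a b c)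
    + pairDD (c - b) (vc - vb) (acc m c a b - acc m b c a)
    + pairDD (a - c) (va - vc) (acc m a b c - acc m c a b) = 0
  K : dot va va + dot vb vb + dot vc vc = U m a b c
  V : 25 / 2 ≤ (dot a a + dot b b + dot c c) * (1 / ‖b - a‖ + 1 / ‖c - b‖ + 1 / ‖a - c‖) ^ 2
  D1 : crs (vb - va) (c - a) + crs (b - a) (vc - va) = 0
  D : crs (b - a) (c - a) ≠ 0

namespace Crit

variable {m : ℝ} {a b c va vb vc : ℂ}

lemma rot (h : Crit m a b c va vb vc) : Crit m b c a vb vc va where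
  mpos := h.mpos
  sum := by rw [← h.sum]; ring
  sumv := by rw [← h.sumv]; ring
  I1 := by rw [← h.I1]; ring
  J := by rw [← h.J]; ring
  U1 := by rw [← h.U1]; ring
  U2 := by rw [← h.U2]; ring
  K := by
    have := h.K
    unfold U at *
    linarith
  V := by
    have := h.V
    calc (25:ℝ) / 2 ≤ _ := this
      _ = _ := by ring
  D1 := by
    have := h.D1
    simp only [crs, sub_re, sub_im] at *
    linarith
  D := by
    have := h.D
    intro h0
    apply this
    simp only [crs, sub_re, sub_im] at *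
    linarith

lemma hD (h : Crit m a b c va vb vc) : crs (b - a) (c - b) ≠ 0 := by
  intro h0
  apply h.D
  simp only [crs, sub_re, sub_im] at *
  linarith

lemma ne_ab (h : Crit m a b c va vb vc) : b - a ≠ 0 := by
  intro h0
  apply h.D
  rw [h0]; simp [crs]

lemma ne_bc (h : Crit m a b c va vb vc) : c - b ≠ 0 := h.rot.ne_ab
lemma ne_ca (h : Crit m a b c va vb vc) : a - c ≠ 0 := h.rot.rot.ne_ab

/-- real form of `lemA` -/
lemma realA {x y z w x' y' z' w' : ℝ} (H3 : x * x' + y * y' = 0) (H1 : z * z' + w * w' = 0)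
    (H2 : x * z' + y * w' + z * x' + w * y' = 0) (HD : x * w - y * z ≠ 0)
    (HJ : 2 * (x * y' - y * x') + 2 * (z * w' - w * z') + (x * w' - y * z') + (z * y' - w * x') = 0) :
    x' = 0 ∧ y' = 0 ∧ z' = 0 ∧ w' = 0 := by
  have n3 : 0 < x ^ 2 + y ^ 2 := by
    rcases eq_or_ne x 0 with h0 | h0
    · rcases eq_or_ne y 0 with h1 | h1
      · exfalso; apply HD; rw [h0, h1]; ring
      · positivity
    · positivity
  have n1 : 0 < z ^ 2 + w ^ 2 := by
    rcases eq_or_ne z 0 with h0 | h0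
    · rcases eq_or_ne w 0 with h1 | h1
      · exfalso; apply HD; rw [h0, h1]; ring
      · positivity
    · positivity
  obtain ⟨β, hβ⟩ : ∃ β, β = (x * y' - y * x') / (x ^ 2 + y ^ 2) := ⟨_, rfl⟩
  obtain ⟨γ, hγ⟩ : ∃ β, β = (z * w' - w * z') / (z ^ 2 + w ^ 2) := ⟨_, rfl⟩
  have ex' : x' = - β * y := by
    rw [hβ]; field_simp; linear_combination x * H3
  have ey' : y' = β * x := by
    rw [hβ]; field_simp; linear_combination y * H3
  have ez' : z' = - γ * w := by
    rw [hγ]; field_simp; linear_combination z * H1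
  have ew' : w' = γ * z := by
    rw [hγ]; field_simp; linear_combination w * H1
  rw [ex', ey', ez', ew'] at H2 HJ
  have e1 : (γ - β) * (x * w - y * z) = 0 := by linear_combination -H2
  have e2 : γ = β := by
    rcases mul_eq_zero.1 e1 with h | h
    · linarith
    · exact absurd h HD
  rw [e2] at HJ
  have e3 : β * (2 * (x ^ 2 + y ^ 2) + 2 * (z ^ 2 + w ^ 2) + 2 * (x * z + y * w)) = 0 := by
    linear_combination HJ
  have e4 : 0 < 2 * (x ^ 2 + y ^ 2) + 2 * (z ^ 2 + w ^ 2) + 2 * (x * z + y * w) := by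
    nlinarith [sq_nonneg (x + z), sq_nonneg (y + w)]
  have e5 : β = 0 := by
    rcases mul_eq_zero.1 e3 with h | h
    · exact h
    · linarith
  rw [e2, e5] at ez' ew'
  rw [e5] at ex' ey'
  refine ⟨by rw [ex']; ring, by rw [ey']; ring, by rw [ez']; ring, by rw [ew']; ring⟩

lemma re0 (h : Crit m a b c va vb vc) : a.re + b.re + c.re = 0 ∧ a.im + b.im + c.im = 0 ∧
    va.re + vb.re + vc.re = 0 ∧ va.im + vb.im + vc.im = 0 := by
  have h1 := congrArg Complex.re h.sum
  have h2 := congrArg Complex.im h.sum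
  have h3 := congrArg Complex.re h.sumv
  have h4 := congrArg Complex.im h.sumv
  simp only [add_re, add_im, zero_re, zero_im] at h1 h2 h3 h4
  exact ⟨h1, h2, h3, h4⟩

/-- the three radial velocities cannot all vanish -/
lemma lemA (h : Crit m a b c va vb vc) (h3 : dot (b - a) (vb - va) = 0)
    (h1 : dot (c - b) (vc - vb) = 0) (h2 : dot (a - c) (va - vc) = 0) : False := by
  have r3 : 0 < ‖b - a‖ := norm_pos_iff.2 h.ne_ab
  have r1 : 0 < ‖c - b‖ := norm_pos_iff.2 h.ne_bc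
  have r2 : 0 < ‖a - c‖ := norm_pos_iff.2 h.ne_ca
  have hK := h.K
  have hU : 0 < U m a b c := by
    unfold U
    have := h.mpos
    positivity
  obtain ⟨k1, k2, k3, k4⟩ := h.re0
  have hJ := h.J
  have hD := h.hD
  simp only [dot, crs, sub_re, sub_im] at h1 h2 h3 hJ hD hK
  have := realA (x := b.re - a.re) (y := b.im - a.im) (z := c.re - b.re) (w := c.im - b.im)
    (x' := vb.re - va.re) (y' := vb.im - va.im) (z' := vc.re - vb.re) (w' := vc.im - vb.im)
    (by linear_combination h3) (by linear_combination h1) (by linear_combination h2 - h3 - h1)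
    (by intro h0; apply hD; linear_combination h0)
    (by
      have e1 : a.re = - b.re - c.re := by linarith
      have e2 : a.im = - b.im - c.im := by linarith
      have e3 : va.re = - vb.re - vc.re := by linarith
      have e4 : va.im = - vb.im - vc.im := by linarith
      rw [e1, e2, e3, e4] at hJ ⊢
      linear_combination 3 * hJ)
  obtain ⟨t1, t2, t3, t4⟩ := this
  have z1 : va.re = 0 := by linarith
  have z2 : va.im = 0 := by linarith
  have z3 : vb.re = 0 := by linarith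
  have z4 : vb.im = 0 := by linarith
  have z5 : vc.re = 0 := by linarith
  have z6 : vc.im = 0 := by linarith
  rw [z1, z2, z3, z4, z5, z6] at hK
  simp at hK
  linarith

/-- sum of radial quantities -/
lemma sum_s (h : Crit m a b c va vb vc) :
    dot (b - a) (vb - va) + dot (c - b) (vc - vb) + dot (a - c) (va - vc) = 0 := by
  obtain ⟨k1, k2, k3, k4⟩ := h.re0
  have hI := h.I1
  simp only [dot, sub_re, sub_im] at *
  have e1 : a.re = - b.re - c.re := by linarith
  have e2 : a.im = - b.im - c.im := by linarith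
  have e3 : va.re = - vb.re - vc.re := by linarith
  have e4 : va.im = - vb.im - vc.im := by linarith
  rw [e1, e2, e3, e4] at hI ⊢
  linear_combination 3 * hI

lemma sum_r2s (h : Crit m a b c va vb vc) :
    ‖b - a‖ ^ 2 * dot (b - a) (vb - va) + ‖c - b‖ ^ 2 * dot (c - b) (vc - vb)
      + ‖a - c‖ ^ 2 * dot (a - c) (va - vc) = 0 := by
  have hs := h.sum_s
  have hD1 := h.D1
  rw [norm_sq_eq, norm_sq_eq, norm_sq_eq]
  simp only [dot, crs, sub_re, sub_im] at *
  linear_combination (1 / 2 * (((b.re - a.re) * (b.re - a.re) + (b.im - a.im) * (b.im - a.im))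
    + ((c.re - b.re) * (c.re - b.re) + (c.im - b.im) * (c.im - b.im))
    + ((a.re - c.re) * (a.re - c.re) + (a.im - c.im) * (a.im - c.im)))) * hs
    - ((b.re - a.re) * (c.im - a.im) - (b.im - a.im) * (c.re - a.re)) * hD1

/-- generalized Vandermonde: exponents `0, 2, -3` -/
lemma vand {r1 r2 r3 s1 s2 s3 : ℝ} (p1 : 0 < r1) (p2 : 0 < r2) (p3 : 0 < r3)
    (h12 : r1 ≠ r2) (h23 : r2 ≠ r3) (h31 : r3 ≠ r1)
    (e0 : s1 + s2 + s3 = 0) (e2 : r1 ^ 2 * s1 + r2 ^ 2 * s2 + r3 ^ 2 * s3 = 0)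
    (e3 : s1 / r1 ^ 3 + s2 / r2 ^ 3 + s3 / r3 ^ 3 = 0) : s1 = 0 ∧ s2 = 0 ∧ s3 = 0 := by
  have e3' : s1 * (r2 * r3) ^ 3 + s2 * (r3 * r1) ^ 3 + s3 * (r1 * r2) ^ 3 = 0 := by
    have : s1 * (r2 * r3) ^ 3 + s2 * (r3 * r1) ^ 3 + s3 * (r1 * r2) ^ 3
        = (s1 / r1 ^ 3 + s2 / r2 ^ 3 + s3 / r3 ^ 3) * (r1 * r2 * r3) ^ 3 := by
      field_simp
    rw [this, e3, zero_mul]
  have key : ∀ a b c : ℝ, 0 < a → 0 < b → 0 < c → a ≠ b → b ≠ c → c ≠ a → ∀ x y z : ℝ,
      x + y + z = 0 → a ^ 2 * x + b ^ 2 * y + c ^ 2 * z = 0 →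
      x * (b * c) ^ 3 + y * (c * a) ^ 3 + z * (a * b) ^ 3 = 0 → x = 0 := by
    intro a b c ha hb hc hab hbc hca x y z f0 f2 f3
    have hD : x * ((a - b) * (b - c) * (c - a) *
        (a ^ 3 * b ^ 2 + a ^ 3 * c ^ 2 + a ^ 2 * b ^ 3 + a ^ 2 * c ^ 3 + b ^ 3 * c ^ 2 + b ^ 2 * c ^ 3
          + a ^ 3 * b * c + a * b ^ 3 * c + a * b * c ^ 3
          + 2 * (a ^ 2 * b ^ 2 * c + a ^ 2 * b * c ^ 2 + a * b ^ 2 * c ^ 2))) = 0 := by
      linear_combination (b ^ 2 * (a * b) ^ 3 - c ^ 2 * (c * a) ^ 3) * f0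
        - ((a * b) ^ 3 - (c * a) ^ 3) * f2 + (c ^ 2 - b ^ 2) * f3
    rcases mul_eq_zero.1 hD with h | h
    · exact h
    · exfalso
      have hP : 0 < a ^ 3 * b ^ 2 + a ^ 3 * c ^ 2 + a ^ 2 * b ^ 3 + a ^ 2 * c ^ 3 + b ^ 3 * c ^ 2
          + b ^ 2 * c ^ 3 + a ^ 3 * b * c + a * b ^ 3 * c + a * b * c ^ 3
          + 2 * (a ^ 2 * b ^ 2 * c + a ^ 2 * b * c ^ 2 + a * b ^ 2 * c ^ 2) := by
        positivity
      exact (mul_ne_zero (mul_ne_zero (mul_ne_zero (sub_ne_zero.2 hab) (sub_ne_zero.2 hbc))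
        (sub_ne_zero.2 hca)) hP.ne') h
  refine ⟨key r1 r2 r3 p1 p2 p3 h12 h23 h31 s1 s2 s3 e0 e2 e3',
    key r2 r3 r1 p2 p3 p1 h23 h31 h12 s2 s3 s1 (by linarith) (by linarith)
      (by linear_combination e3'),
    key r3 r1 r2 p3 p1 p2 h31 h12 h23 s3 s1 s2 (by linarith) (by linarith)
      (by linear_combination e3')⟩

end Crit

end Pool.Agent.H908R3.Vir
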