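import Pool.Agent.H908R3.Vir.Crit

set_option autoImplicit false

namespace Pool.Agent.H908R3.Vir

open Complex

lemma dot_self (x : ℂ) : dot x x = ‖x‖ ^ 2 := by
  rw [norm_sq_eq]; rfl

lemma dot_acc (m : ℝ) (a b c : ℂ) (h3 : b - a ≠ 0) (h1 : c - b ≠ 0) (h2 : a - c ≠ 0) :
    dot (b - a) (acc m b c a - acc m a b c) =
      m * ((‖a - c‖ ^ 2 - ‖c - b‖ ^ 2 - ‖b - a‖ ^ 2) / (2 * ‖c - b‖ ^ 3) - 2 / ‖b - a‖
        + (‖c - b‖ ^ 2 - ‖a - c‖ ^ 2 - ‖b - a‖ ^ 2) / (2 * ‖a - c‖ ^ 3)) := by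
  have r3 : 0 < ‖b - a‖ := norm_pos_iff.2 h3
  have r1 : 0 < ‖c - b‖ := norm_pos_iff.2 h1
  have r2 : 0 < ‖a - c‖ := norm_pos_iff.2 h2
  have e1 : dot (b - a) (acc m b c a - acc m a b c) =
      (m / ‖c - b‖ ^ 3) * dot (b - a) (c - b) - 2 * (m / ‖b - a‖ ^ 3) * dot (b - a) (b - a)
        + (m / ‖a - c‖ ^ 3) * dot (b - a) (a - c) := by
    unfold acc
    rw [norm_sub_rev a b, norm_sub_rev c a]
    simp only [dot, sub_re, sub_im, add_re, add_im, real_smul, mul_re, mul_im, ofReal_re, ofReal_im]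
    ring
  have e2 : dot (b - a) (c - b) = (‖a - c‖ ^ 2 - ‖c - b‖ ^ 2 - ‖b - a‖ ^ 2) / 2 := by
    rw [norm_sq_eq, norm_sq_eq, norm_sq_eq]
    simp only [dot, sub_re, sub_im]
    ring
  have e3 : dot (b - a) (a - c) = (‖c - b‖ ^ 2 - ‖a - c‖ ^ 2 - ‖b - a‖ ^ 2) / 2 := by
    rw [norm_sq_eq, norm_sq_eq, norm_sq_eq]
    simp only [dot, sub_re, sub_im]
    ring
  rw [e1, e2, e3, dot_self]
  field_simp

/-- parametrisation of the velocities in the isosceles case -/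
lemma iso_param {u1 u2 z1 z2 a1 a2 b1 b2 : ℝ} (huz : u1 * z1 + u2 * z2 = 0)
    (hua : u1 * a1 + u2 * a2 = 0) (hzb : z1 * b1 + z2 * b2 = 0)
    (hJ : (u1 * a2 - u2 * a1) + 3 * (z1 * b2 - z2 * b1) = 0)
    (hu : 0 < u1 ^ 2 + u2 ^ 2) (hD : u1 * z2 - u2 * z1 ≠ 0) :
    ∃ γ : ℝ, a1 ^ 2 + a2 ^ 2 = γ ^ 2 * (9 * (z1 ^ 2 + z2 ^ 2)) ∧
      b1 ^ 2 + b2 ^ 2 = γ ^ 2 * (u1 ^ 2 + u2 ^ 2) ∧
      z1 * a1 + z2 * a2 = 3 * γ * (z1 ^ 2 + z2 ^ 2) ∧
      u1 * b1 + u2 * b2 = γ * (u1 ^ 2 + u2 ^ 2) ∧ a1 * b1 + a2 * b2 = 0 := by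
  obtain ⟨κ, hκ⟩ : ∃ κ, κ = (u1 * z2 - u2 * z1) / (u1 ^ 2 + u2 ^ 2) := ⟨_, rfl⟩
  obtain ⟨β, hβ⟩ : ∃ κ, κ = (u1 * a2 - u2 * a1) / (u1 ^ 2 + u2 ^ 2) := ⟨_, rfl⟩
  obtain ⟨γ, hγ⟩ : ∃ κ, κ = (u1 * b1 + u2 * b2) / (u1 ^ 2 + u2 ^ 2) := ⟨_, rfl⟩
  have κ0 : κ ≠ 0 := by rw [hκ]; exact div_ne_zero hD hu.ne'
  have ez1 : z1 = - κ * u2 := by
    rw [hκ]; field_simp; linear_combination u1 * huz
  have ez2 : z2 = κ * u1 := by
    rw [hκ]; field_simp; linear_combination u2 * huz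
  have ea1 : a1 = - β * u2 := by
    rw [hβ]; field_simp; linear_combination u1 * hua
  have ea2 : a2 = β * u1 := by
    rw [hβ]; field_simp; linear_combination u2 * hua
  have hc : u1 * b2 - u2 * b1 = 0 := by
    have : κ * (u1 * b2 - u2 * b1) = 0 := by rw [ez1, ez2] at hzb; linear_combination hzb
    exact (mul_eq_zero.1 this).resolve_left κ0
  have eb1 : b1 = γ * u1 := by
    rw [hγ]; field_simp; linear_combination -u2 * hc
  have eb2 : b2 = γ * u2 := by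
    rw [hγ]; field_simp; linear_combination u1 * hc
  have hb : β = 3 * κ * γ := by
    rw [ez1, ez2, ea1, ea2, eb1, eb2] at hJ
    have : (β - 3 * κ * γ) * (u1 ^ 2 + u2 ^ 2) = 0 := by linear_combination hJ
    rcases mul_eq_zero.1 this with h | h
    · linarith
    · exact absurd h hu.ne'
  refine ⟨γ, ?_, ?_, ?_, ?_, ?_⟩
  · rw [ea1, ea2, ez1, ez2, hb]; ring
  · rw [eb1, eb2]; ring
  · rw [ea1, ea2, ez1, ez2, hb]; ring
  · rw [eb1, eb2]; ring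
  · rw [ea1, ea2, eb1, eb2]; ring

namespace Crit

variable {m : ℝ} {a b c va vb vc : ℂ}

lemma sum_w (h : Crit m a b c va vb vc) :
    dot (vb - va) (vb - va) + dot (vc - vb) (vc - vb) + dot (va - vc) (va - vc)
      = 3 * U m a b c := by
  rw [← h.K]
  obtain ⟨k1, k2, k3, k4⟩ := h.re0
  simp only [dot, sub_re, sub_im]
  have e3 : va.re = - vb.re - vc.re := by linarith
  have e4 : va.im = - vb.im - vc.im := by linarith
  rw [e3, e4]
  ring

lemma equi (h : Crit m a b c va vb vc) (h1 : ‖c - b‖ = ‖b - a‖) (h2 : ‖a - c‖ = ‖b - a‖) :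
    False := by
  have r3 : 0 < ‖b - a‖ := norm_pos_iff.2 h.ne_ab
  have hU2 := h.U2
  have hw := h.sum_w
  unfold pairDD at hU2
  rw [dot_acc m a b c h.ne_ab h.ne_bc h.ne_ca, dot_acc m b c a h.ne_bc h.ne_ca h.ne_ab,
    dot_acc m c a b h.ne_ca h.ne_ab h.ne_bc, h1, h2] at hU2
  unfold U at hw
  rw [h1, h2] at hw
  set ρ := ‖b - a‖ with hρ
  set s3 := dot (b - a) (vb - va)
  set s1 := dot (c - b) (vc - vb)
  set s2 := dot (a - c) (va - vc)
  have key : s3 ^ 2 + s1 ^ 2 + s2 ^ 2 = 0 := by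
    have e : 3 * (s3 ^ 2 + s1 ^ 2 + s2 ^ 2) = ρ ^ 2 * (dot (vb - va) (vb - va)
        + dot (vc - vb) (vc - vb) + dot (va - vc) (va - vc) - 3 * (m * (1 / ρ + 1 / ρ + 1 / ρ))) := by
      field_simp at hU2 ⊢
      linear_combination (-1 / 2) * hU2
    rw [hw] at e
    linarith
  have z3 : s3 = 0 := by nlinarith [sq_nonneg s3, sq_nonneg s1, sq_nonneg s2]
  have z1 : s1 = 0 := by nlinarith [sq_nonneg s3, sq_nonneg s1, sq_nonneg s2]
  have z2 : s2 = 0 := by nlinarith [sq_nonneg s3, sq_nonneg s1, sq_nonneg s2]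
  exact h.lemA z3 z1 z2

/-- isosceles, not equilateral -/
lemma iso (h : Crit m a b c va vb vc) (h12 : ‖a - c‖ = ‖c - b‖) (hne : ‖b - a‖ ≠ ‖c - b‖) :
    False := by
  have r3 : 0 < ‖b - a‖ := norm_pos_iff.2 h.ne_ab
  have r1 : 0 < ‖c - b‖ := norm_pos_iff.2 h.ne_bc
  have hU2 := h.U2
  have hV := h.V
  have hK := h.K
  have hs := h.sum_s
  have hr := h.sum_r2s
  obtain ⟨k1, k2, k3, k4⟩ := h.re0
  unfold pairDD at hU2
  rw [dot_acc m a b c h.ne_ab h.ne_bc h.ne_ca, dot_acc m b c a h.ne_bc h.ne_ca h.ne_ab,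
    dot_acc m c a b h.ne_ca h.ne_ab h.ne_bc, h12] at hU2
  unfold U at hK
  rw [h12] at hV hK hr
  obtain ⟨ρ, hρ⟩ : ∃ ρ, ρ = ‖c - b‖ := ⟨_, rfl⟩
  obtain ⟨x, hx⟩ : ∃ ρ, ρ = ‖b - a‖ := ⟨_, rfl⟩
  rw [← hρ, ← hx] at hU2 hV hK hr hne
  have r3 : 0 < x := hx ▸ r3
  have r1 : 0 < ρ := hρ ▸ r1
  -- radial quantities
  have hs3 : dot (b - a) (vb - va) = 0 := by
    have e : (x ^ 2 - ρ ^ 2) * dot (b - a) (vb - va) = 0 := by
      linear_combination hr - ρ ^ 2 * hs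
    rcases mul_eq_zero.1 e with h0 | h0
    · exfalso
      apply hne
      have : (x - ρ) * (x + ρ) = 0 := by linear_combination h0
      rcases mul_eq_zero.1 this with h1 | h1
      · linarith
      · linarith
    · exact h0
  have hs2 : dot (a - c) (va - vc) = - dot (c - b) (vc - vb) := by linarith
  -- coordinates
  have X1 : x ^ 2 = (b.re - a.re) ^ 2 + (b.im - a.im) ^ 2 := by
    rw [hx, norm_sq_eq]; simp only [sub_re, sub_im]; ring
  have R1 : ρ ^ 2 = (c.re - b.re) ^ 2 + (c.im - b.im) ^ 2 := by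
    rw [hρ, norm_sq_eq]; simp only [sub_re, sub_im]; ring
  have R2 : ρ ^ 2 = (a.re - c.re) ^ 2 + (a.im - c.im) ^ 2 := by
    rw [hρ, ← h12, norm_sq_eq]; simp only [sub_re, sub_im]; ring
  have hI := h.I1
  have hJ := h.J
  have hDD := h.D
  simp only [dot, crs, sub_re, sub_im] at hs3 hI hJ hDD
  obtain ⟨u1, hu1⟩ : ∃ t, t = b.re - a.re := ⟨_, rfl⟩
  obtain ⟨u2, hu2⟩ : ∃ t, t = b.im - a.im := ⟨_, rfl⟩
  obtain ⟨a1, ha1⟩ : ∃ t, t = vb.re - va.re := ⟨_, rfl⟩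
  obtain ⟨a2, ha2⟩ : ∃ t, t = vb.im - va.im := ⟨_, rfl⟩
  have ear : a.re = (- c.re - u1) / 2 := by linarith
  have ebr : b.re = (- c.re + u1) / 2 := by linarith
  have eai : a.im = (- c.im - u2) / 2 := by linarith
  have ebi : b.im = (- c.im + u2) / 2 := by linarith
  have far : va.re = (- vc.re - a1) / 2 := by linarith
  have fbr : vb.re = (- vc.re + a1) / 2 := by linarith
  have fai : va.im = (- vc.im - a2) / 2 := by linarith
  have fbi : vb.im = (- vc.im + a2) / 2 := by linarith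
  simp only [ear, ebr, eai, ebi] at X1 R1 R2 hDD
  simp only [ear, ebr, eai, ebi, far, fbr, fai, fbi] at hs3 hI hJ
  have huz : u1 * c.re + u2 * c.im = 0 := by linear_combination (R1 - R2) * (1 / 3)
  have hua : u1 * a1 + u2 * a2 = 0 := by linear_combination hs3
  have hzb : c.re * vc.re + c.im * vc.im = 0 := by
    linear_combination (2 / 3) * hI - (1 / 3) * hua
  have hJ' : (u1 * a2 - u2 * a1) + 3 * (c.re * vc.im - c.im * vc.re) = 0 := by
    linear_combination 2 * hJ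
  have hD' : u1 * c.im - u2 * c.re ≠ 0 := by
    intro h0; apply hDD; linear_combination (3 / 2) * h0
  have X1' : x ^ 2 = u1 ^ 2 + u2 ^ 2 := by linear_combination X1
  have hz : 9 * (c.re ^ 2 + c.im ^ 2) = 4 * ρ ^ 2 - x ^ 2 := by
    linear_combination X1' - 4 * R1 + 6 * huz
  obtain ⟨γ, g1, g2, g3, g4, g5⟩ := iso_param huz hua hzb hJ' (by rw [← X1']; positivity) hD'
  rw [hz] at g1
  rw [← X1'] at g2 g4
  have g3' : c.re * a1 + c.im * a2 = γ * (4 * ρ ^ 2 - x ^ 2) / 3 := by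
    rw [g3]; linear_combination (γ / 3) * hz
  have W3 : dot (vb - va) (vb - va) = γ ^ 2 * (4 * ρ ^ 2 - x ^ 2) := by
    simp only [dot, sub_re, sub_im, far, fbr, fai, fbi]
    linear_combination g1
  have W1 : dot (vc - vb) (vc - vb) = γ ^ 2 * (2 * x ^ 2 + ρ ^ 2) := by
    simp only [dot, sub_re, sub_im, fbr, fbi]
    linear_combination (9 / 4) * g2 + (1 / 4) * g1 - (3 / 2) * g5
  have W2 : dot (va - vc) (va - vc) = γ ^ 2 * (2 * x ^ 2 + ρ ^ 2) := by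
    simp only [dot, sub_re, sub_im, far, fai]
    linear_combination (9 / 4) * g2 + (1 / 4) * g1 + (3 / 2) * g5
  have S1 : dot (c - b) (vc - vb) = - γ * (2 * ρ ^ 2 + x ^ 2) / 2 := by
    simp only [dot, sub_re, sub_im, fbr, fbi, ebr, ebi]
    linear_combination (9 / 4) * hzb - (3 / 4) * g3' - (3 / 4) * g4 + (1 / 4) * hua
  have S3 : dot (b - a) (vb - va) = 0 := by
    simp only [dot, sub_re, sub_im, far, fbr, fai, fbi, ear, ebr, eai, ebi]
    linear_combination hua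
  rw [hs2, S1, S3, W1, W2, W3] at hU2
  have KK : γ ^ 2 * (2 * ρ ^ 2 + x ^ 2) = m * (1 / x + 2 / ρ) := by
    have e : m * (1 / x + 2 / ρ) = m * (1 / x + 1 / ρ + 1 / ρ) := by ring
    rw [e, ← hK]
    simp only [dot, far, fbr, fai, fbi]
    linear_combination -(3 / 2) * g2 - (1 / 2) * g1
  have VV : 25 / 2 ≤ ((2 * ρ ^ 2 + x ^ 2) / 3) * (1 / x + 2 / ρ) ^ 2 := by
    have e1 : dot a a + dot b b + dot c c = (2 * ρ ^ 2 + x ^ 2) / 3 := by
      simp only [dot, ear, ebr, eai, ebi]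
      linear_combination (1 / 6) * hz - (1 / 2) * X1'
    rw [e1] at hV
    have e : (1 / x + 2 / ρ) = (1 / x + 1 / ρ + 1 / ρ) := by ring
    rw [e]
    exact hV
  have hlt : x < 2 * ρ := by
    have hpos : 0 < c.re ^ 2 + c.im ^ 2 := by
      rcases eq_or_ne c.re 0 with h0 | h0
      · rcases eq_or_ne c.im 0 with h1 | h1
        · exfalso; apply hD'; rw [h0, h1]; ring
        · positivity
      · positivity
    have h4 : x ^ 2 < (2 * ρ) ^ 2 := by linarith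
    exact lt_of_pow_lt_pow_left₀ 2 (by positivity) h4
  refine iso_real (M := γ ^ 2) r3 r1 h.mpos hlt KK VV ?_
  rw [← hU2]
  field_simp
  ring

/-- **Static theorem**: the critical data cannot exist. -/
theorem false (h : Crit m a b c va vb vc) : False := by
  by_cases h12 : ‖c - b‖ = ‖a - c‖
  · by_cases h3 : ‖b - a‖ = ‖c - b‖
    · exact h.equi h3.symm (by rw [← h12, h3])
    · exact h.iso h12.symm h3
  by_cases h23 : ‖a - c‖ = ‖b - a‖
  · -- rotate : (b, c, a)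
    have h' := h.rot
    by_cases h3 : ‖c - b‖ = ‖a - c‖
    · exact h'.equi h3.symm (by rw [← h23, h3])
    · exact h'.iso h23.symm h3
  by_cases h31 : ‖b - a‖ = ‖c - b‖
  · have h' := h.rot.rot
    by_cases h3 : ‖a - c‖ = ‖b - a‖
    · exact h'.equi h3.symm (by rw [← h31, h3])
    · exact h'.iso h31.symm h3
  have r3 : 0 < ‖b - a‖ := norm_pos_iff.2 h.ne_ab
  have r1 : 0 < ‖c - b‖ := norm_pos_iff.2 h.ne_bc
  have r2 : 0 < ‖a - c‖ := norm_pos_iff.2 h.ne_ca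
  obtain ⟨z1, z2, z3⟩ := vand r1 r2 r3 h12 h23 h31
    (s1 := dot (c - b) (vc - vb)) (s2 := dot (a - c) (va - vc)) (s3 := dot (b - a) (vb - va))
    (by linarith [h.sum_s]) (by linarith [h.sum_r2s]) (by linarith [h.U1])
  exact h.lemA z3 z1 z2

end Crit

end Pool.Agent.H908R3.Vir
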