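import Pool.Agent.H908R3.Vir.Limit

set_option autoImplicit false

namespace Pool.Agent.H908R3.Vir

open Complex Filter Topology

/-- solutions with constant force function, constant moment of inertia and zero angular momentum -/
structure Exact (m e I0 : ℝ) (a b c va vb vc : ℝ → ℂ) : Prop extends Sol m a b c va vb vc where
  hU : ∀ t, U m (a t) (b t) (c t) = 2 * e
  hK : ∀ t, dot (va t) (va t) + dot (vb t) (vb t) + dot (vc t) (vc t) = 2 * e
  hI : ∀ t, dot (a t) (a t) + dot (b t) (b t) + dot (c t) (c t) = I0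
  hJ : ∀ t, crs (a t) (va t) + crs (b t) (vb t) + crs (c t) (vc t) = 0

lemma dot_self_nonneg (x : ℂ) : 0 ≤ dot x x := by rw [dot_self]; positivity

/-- collinear configurations: real inequality -/
lemma coll_real {p q : ℝ} (hp : 0 < p) (hq : 0 < q) :
    25 / 2 ≤ ((p ^ 2 + q ^ 2 + (p + q) ^ 2) / 3) * (1 / p + 1 / q + 1 / (p + q)) ^ 2 := by
  have e : ((p ^ 2 + q ^ 2 + (p + q) ^ 2) / 3) * (1 / p + 1 / q + 1 / (p + q)) ^ 2
      = (p ^ 2 + q ^ 2 + (p + q) ^ 2) * ((p + q) ^ 2 + p * q) ^ 2 / (3 * (p * q) ^ 2 * (p + q) ^ 2) := by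
    field_simp
    ring
  rw [e, le_div_iff₀ (by positivity)]
  obtain ⟨P, hP⟩ : ∃ P, P = p * q := ⟨_, rfl⟩
  obtain ⟨d, hd⟩ : ∃ d, d = (p - q) ^ 2 := ⟨_, rfl⟩
  have hP0 : 0 < P := by rw [hP]; positivity
  have hd0 : 0 ≤ d := by rw [hd]; positivity
  have e1 : (p + q) ^ 2 = 4 * P + d := by rw [hP, hd]; ring
  have e2 : p ^ 2 + q ^ 2 = 2 * P + d := by rw [hP, hd]; ring
  rw [e1, e2, ← hP]
  have : 0 ≤ 145 * P ^ 2 * d + 52 * P * d ^ 2 + 4 * d ^ 3 := by positivity
  nlinarith [this]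

lemma coll_static {a b c : ℂ} (hs : a + b + c = 0) (h3 : b - a ≠ 0) (h1 : c - b ≠ 0)
    (h2 : a - c ≠ 0) (hD : crs (b - a) (c - a) = 0) :
    25 / 2 ≤ (dot a a + dot b b + dot c c) * (1 / ‖b - a‖ + 1 / ‖c - b‖ + 1 / ‖a - c‖) ^ 2 := by
  have r3 : 0 < ‖b - a‖ := norm_pos_iff.2 h3
  have r1 : 0 < ‖c - b‖ := norm_pos_iff.2 h1
  have r2 : 0 < ‖a - c‖ := norm_pos_iff.2 h2
  have k1 := congrArg Complex.re hs
  have k2 := congrArg Complex.im hs
  simp only [add_re, add_im, zero_re, zero_im] at k1 k2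
  have eI : dot a a + dot b b + dot c c = (‖b - a‖ ^ 2 + ‖c - b‖ ^ 2 + ‖a - c‖ ^ 2) / 3 := by
    rw [norm_sq_eq, norm_sq_eq, norm_sq_eq]
    have ea : a.re = - b.re - c.re := by linarith
    have eb : a.im = - b.im - c.im := by linarith
    simp only [dot, sub_re, sub_im, ea, eb]
    ring
  have eD : (‖b - a‖ + ‖c - b‖ + ‖a - c‖) * ((-‖b - a‖ + ‖c - b‖ + ‖a - c‖) *
      ((‖b - a‖ - ‖c - b‖ + ‖a - c‖) * (‖b - a‖ + ‖c - b‖ - ‖a - c‖))) = 0 := by
    have e1 : (‖b - a‖ + ‖c - b‖ + ‖a - c‖) * ((-‖b - a‖ + ‖c - b‖ + ‖a - c‖) *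
      ((‖b - a‖ - ‖c - b‖ + ‖a - c‖) * (‖b - a‖ + ‖c - b‖ - ‖a - c‖)))
      = (‖b - a‖ ^ 2 + ‖c - b‖ ^ 2 + ‖a - c‖ ^ 2) ^ 2
        - 2 * ((‖b - a‖ ^ 2) ^ 2 + (‖c - b‖ ^ 2) ^ 2 + (‖a - c‖ ^ 2) ^ 2) := by ring
    rw [e1, norm_sq_eq, norm_sq_eq, norm_sq_eq]
    simp only [crs, sub_re, sub_im] at hD ⊢
    linear_combination 4 * ((b.re - a.re) * (c.im - a.im) - (b.im - a.im) * (c.re - a.re)) * hD
  rw [eI]
  rcases mul_eq_zero.1 eD with h | h
  · exfalso; linarith
  rcases mul_eq_zero.1 h with h | h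
  · have e : ‖b - a‖ = ‖c - b‖ + ‖a - c‖ := by linarith
    have := coll_real r1 r2
    rw [← e] at this
    calc (25:ℝ) / 2 ≤ _ := this
      _ = _ := by ring
  rcases mul_eq_zero.1 h with h | h
  · have e : ‖c - b‖ = ‖b - a‖ + ‖a - c‖ := by linarith
    have := coll_real r3 r2
    rw [← e] at this
    calc (25:ℝ) / 2 ≤ _ := this
      _ = _ := by ring
  · have e : ‖a - c‖ = ‖b - a‖ + ‖c - b‖ := by linarith
    have := coll_real r3 r1
    rw [← e] at this
    calc (25:ℝ) / 2 ≤ _ := this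
      _ = _ := by ring

namespace Exact

variable {m e I0 : ℝ} {a b c va vb vc : ℝ → ℂ}

lemma Upos (h : Exact m e I0 a b c va vb vc) : 0 < e := by
  have h1 := h.hU 0
  have r3 : 0 < ‖b 0 - a 0‖ := norm_pos_iff.2 (h.ab 0)
  have r1 : 0 < ‖c 0 - b 0‖ := norm_pos_iff.2 (h.bc 0)
  have r2 : 0 < ‖a 0 - c 0‖ := norm_pos_iff.2 (h.ca 0)
  have : 0 < U m (a 0) (b 0) (c 0) := by
    unfold U
    have := h.mpos
    positivity
  linarith

lemma I1 (h : Exact m e I0 a b c va vb vc) (t : ℝ) :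
    dot (a t) (va t) + dot (b t) (vb t) + dot (c t) (vc t) = 0 := by
  have h1 := h.dI t
  have h2 : (fun s => dot (a s) (a s) + dot (b s) (b s) + dot (c s) (c s)) = fun _ => I0 := by
    funext s; exact h.hI s
  rw [h2] at h1
  have := h1.unique (hasDerivAt_const t I0)
  linarith

lemma U1 (h : Exact m e I0 a b c va vb vc) (t : ℝ) :
    dot (b t - a t) (vb t - va t) / ‖b t - a t‖ ^ 3
        + dot (c t - b t) (vc t - vb t) / ‖c t - b t‖ ^ 3
        + dot (a t - c t) (va t - vc t) / ‖a t - c t‖ ^ 3 = 0 := by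
  have h1 := h.dU t
  have h2 : (fun s => U m (a s) (b s) (c s)) = fun _ => 2 * e := by
    funext s; exact h.hU s
  rw [h2] at h1
  have h3 := h1.unique (hasDerivAt_const t (2 * e))
  have hm := h.mpos.ne'
  rcases mul_eq_zero.1 h3 with h4 | h4
  · exact absurd h4 hm
  · linarith

lemma U2 (h : Exact m e I0 a b c va vb vc) (t : ℝ) :
    pairDD (b t - a t) (vb t - va t) (acc m (b t) (c t) (a t) - acc m (a t) (b t) (c t))
    + pairDD (c t - b t) (vc t - vb t) (acc m (c t) (a t) (b t) - acc m (b t) (c t) (a t))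
    + pairDD (a t - c t) (va t - vc t) (acc m (a t) (b t) (c t) - acc m (c t) (a t) (b t)) = 0 := by
  have h1 := h.dG t
  have h2 : (fun t => dot (b t - a t) (vb t - va t) / ‖b t - a t‖ ^ 3
        + dot (c t - b t) (vc t - vb t) / ‖c t - b t‖ ^ 3
        + dot (a t - c t) (va t - vc t) / ‖a t - c t‖ ^ 3) = fun _ => 0 := by
    funext s; exact h.U1 s
  rw [h2] at h1
  exact h1.unique (hasDerivAt_const t 0)

/-- there is a collinear instant -/
lemma exists_coll (h : Exact m e I0 a b c va vb vc) :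
    ∃ t, crs (b t - a t) (c t - a t) = 0 := by
  by_contra hcon
  push Not at hcon
  set D : ℝ → ℝ := fun t => crs (b t - a t) (c t - a t) with hD
  have hcont : Continuous D := continuous_iff_continuousAt.2 fun t => (h.dD t).continuousAt
  -- constant sign
  have hsign : (∀ t, 0 < D t) ∨ (∀ t, D t < 0) := by
    by_contra hc
    push Not at hc
    obtain ⟨⟨t1, h1⟩, ⟨t2, h2⟩⟩ := hc
    obtain ⟨t, -, ht⟩ := intermediate_value_uIcc (a := t1) (b := t2) hcont.continuousOn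
      (show (0:ℝ) ∈ Set.uIcc (D t1) (D t2) from Set.mem_uIcc.2 (Or.inl ⟨h1, h2⟩))
    exact hcon t ht
  -- second derivative
  have hdd : ∀ t, ∃ g : ℝ, 0 < g ∧
      (- (2 * (m / ‖b t - a t‖ ^ 3 + m / ‖c t - b t‖ ^ 3 + m / ‖a t - c t‖ ^ 3))
        * crs (b t - a t) (c t - a t) + 2 * crs (vb t - va t) (vc t - va t)) = - g * D t := by
    intro t
    have r3 : 0 < ‖b t - a t‖ := norm_pos_iff.2 (h.ab t)
    have r1 : 0 < ‖c t - b t‖ := norm_pos_iff.2 (h.bc t)
    have r2 : 0 < ‖a t - c t‖ := norm_pos_iff.2 (h.ca t)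
    have hm := h.mpos
    have hk := Sol.kin_static (h.sum t) (h.sumv t) (h.I1 t) (h.hJ t)
    rw [dot_self] at hk
    have hk' : crs (vb t - va t) (vc t - va t)
        = - (3 * dot (vc t) (vc t) / ‖b t - a t‖ ^ 2) * D t := by
      field_simp
      linear_combination hk
    refine ⟨2 * (m / ‖b t - a t‖ ^ 3 + m / ‖c t - b t‖ ^ 3 + m / ‖a t - c t‖ ^ 3)
      + 2 * (3 * dot (vc t) (vc t) / ‖b t - a t‖ ^ 2), ?_, ?_⟩
    · have := dot_self_nonneg (vc t)
      positivity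
    · rw [hk']; ring
  choose g hg0 hg using hdd
  rcases hsign with hs | hs
  · refine no_concave (f := D) h.dD (fun t => (h.ddD t)) hs (fun t => ?_)
    rw [hg t]
    have := mul_pos (hg0 t) (hs t)
    linarith
  · refine no_concave (f := fun t => - D t) (fun t => (h.dD t).neg) (fun t => (h.ddD t).neg)
      (fun t => by linarith [hs t]) (fun t => ?_)
    rw [hg t]
    have := mul_pos (hg0 t) (neg_pos.2 (hs t))
    linarith

/-- the shape inequality at all times -/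
lemma V (h : Exact m e I0 a b c va vb vc) (t : ℝ) :
    25 / 2 ≤ (dot (a t) (a t) + dot (b t) (b t) + dot (c t) (c t)) *
      (1 / ‖b t - a t‖ + 1 / ‖c t - b t‖ + 1 / ‖a t - c t‖) ^ 2 := by
  obtain ⟨s, hs⟩ := h.exists_coll
  have h1 := coll_static (h.sum s) (h.ab s) (h.bc s) (h.ca s) hs
  have h2 : ∀ t, (1 / ‖b t - a t‖ + 1 / ‖c t - b t‖ + 1 / ‖a t - c t‖) = 2 * e / m := by
    intro t
    have := h.hU t
    unfold U at this
    have hm := h.mpos
    field_simp
    field_simp at this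
    linarith
  rw [h2, h.hI] at h1 ⊢
  exact h1

/-- critical data at an instant where the area is stationary and non-zero -/
lemma crit (h : Exact m e I0 a b c va vb vc) (t : ℝ)
    (hD : crs (b t - a t) (c t - a t) ≠ 0)
    (hD1 : crs (vb t - va t) (c t - a t) + crs (b t - a t) (vc t - va t) = 0) : False :=
  Crit.false (m := m) (a := a t) (b := b t) (c := c t) (va := va t) (vb := vb t) (vc := vc t)
    { mpos := h.mpos
      sum := h.sum t
      sumv := h.sumv t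
      I1 := h.I1 t
      J := h.hJ t
      U1 := h.U1 t
      U2 := h.U2 t
      K := by rw [h.hK, h.hU]
      V := h.V t
      D1 := hD1
      D := hD }

end Exact

end Pool.Agent.H908R3.Vir
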