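import Pool.Agent.H908R3.Vir.NoExact

set_option autoImplicit false

namespace Pool.Agent.H908R3.Vir

open Complex Filter Topology

lemma abs_crs_le (x y : ℂ) : |crs x y| ≤ ‖x‖ * ‖y‖ := by
  apply abs_le_of_sq_le_sq _ (by positivity)
  have := lagrange_id x y
  have h2 := sq_nonneg (dot x y)
  rw [dot_self, dot_self] at this
  nlinarith

lemma abs_dot_le (x y : ℂ) : |dot x y| ≤ ‖x‖ * ‖y‖ := by
  apply abs_le_of_sq_le_sq _ (by positivity)
  have := lagrange_id x y
  have h2 := sq_nonneg (crs x y)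
  rw [dot_self, dot_self] at this
  nlinarith

/-- second derivative of the norm -/
lemma hasDerivAt_norm2 {p w : ℝ → ℂ} {α : ℂ} {t : ℝ} (hp : HasDerivAt p (w t) t)
    (hw : HasDerivAt w α t) (h0 : p t ≠ 0) :
    HasDerivAt (fun s => dot (p s) (w s) / ‖p s‖)
      (crs (p t) (w t) ^ 2 / ‖p t‖ ^ 3 + dot (p t) α / ‖p t‖) t := by
  have h1 := hasDerivAt_norm' hp h0
  have hpos : 0 < ‖p t‖ := norm_pos_iff.2 h0
  have h3 := (hasDerivAt_dot hp hw).div h1 hpos.ne'
  refine h3.congr_deriv ?_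
  have := lagrange_id (p t) (w t)
  rw [dot_self (p t)] at this
  field_simp
  linear_combination -this

/-- radial force on a far body -/
lemma far_force {m d : ℝ} (hm : 0 < m) {a b c : ℂ} (hs : a + b + c = 0) (hab : ‖b - a‖ ≤ d)
    (hcd : d ≤ ‖c‖) (hc : 0 < ‖c‖) (h1 : c - b ≠ 0) (h2 : a - c ≠ 0) :
    dot c (acc m c a b) ≤ - (m / (4 * ‖c‖)) := by
  have r1 : 0 < ‖c - b‖ := norm_pos_iff.2 h1
  have r2 : 0 < ‖a - c‖ := norm_pos_iff.2 h2
  have k1 := congrArg Complex.re hs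
  have k2 := congrArg Complex.im hs
  simp only [add_re, add_im, zero_re, zero_im] at k1 k2
  have hdu := abs_le.1 (abs_dot_le c (b - a))
  have hb : ‖c‖ * ‖b - a‖ ≤ ‖c‖ ^ 2 := by nlinarith
  have ea : a.re = - b.re - c.re := by linarith
  have eb : a.im = - b.im - c.im := by linarith
  have e1 : dot c (a - c) = - (3 / 2) * ‖c‖ ^ 2 - (1 / 2) * dot c (b - a) := by
    rw [norm_sq_eq]; simp only [dot, sub_re, sub_im, ea, eb]; ring
  have e2 : dot c (b - c) = - (3 / 2) * ‖c‖ ^ 2 + (1 / 2) * dot c (b - a) := by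
    rw [norm_sq_eq]; simp only [dot, sub_re, sub_im, ea, eb]; ring
  have f1 : dot c (a - c) ≤ - ‖c‖ ^ 2 := by rw [e1]; nlinarith [hdu.1]
  have f2 : dot c (b - c) ≤ - ‖c‖ ^ 2 := by rw [e2]; nlinarith [hdu.2]
  have hac : ‖a - c‖ ≤ 2 * ‖c‖ := by
    have e : a - c = (-(1 / 2 : ℂ)) * (b - a) + (-(3 / 2 : ℂ)) * c := by
      have : a = - b - c := by linear_combination hs
      rw [this]; ring
    rw [e]
    refine (norm_add_le _ _).trans ?_
    rw [norm_mul, norm_mul]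
    have n1 : ‖(-(1 / 2 : ℂ))‖ = 1 / 2 := by rw [norm_neg]; norm_num
    have n2 : ‖(-(3 / 2 : ℂ))‖ = 3 / 2 := by rw [norm_neg]; norm_num
    rw [n1, n2]
    linarith
  have hbc : ‖b - c‖ ≤ 2 * ‖c‖ := by
    have e : b - c = ((1 / 2 : ℂ)) * (b - a) + (-(3 / 2 : ℂ)) * c := by
      have : a = - b - c := by linear_combination hs
      rw [this]; ring
    rw [e]
    refine (norm_add_le _ _).trans ?_
    rw [norm_mul, norm_mul]
    have n1 : ‖((1 / 2 : ℂ))‖ = 1 / 2 := by norm_num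
    have n2 : ‖(-(3 / 2 : ℂ))‖ = 3 / 2 := by rw [norm_neg]; norm_num
    rw [n1, n2]
    linarith
  have e3 : dot c (acc m c a b) = (m / ‖a - c‖ ^ 3) * dot c (a - c) + (m / ‖b - c‖ ^ 3) * dot c (b - c) := by
    unfold acc
    simp only [dot, sub_re, sub_im, add_re, add_im, real_smul, mul_re, mul_im, ofReal_re, ofReal_im]
    ring
  have r1' : 0 < ‖b - c‖ := by rwa [norm_sub_rev]
  have g1 : m / (2 * ‖c‖) ^ 3 ≤ m / ‖a - c‖ ^ 3 := by gcongr
  have g2 : m / (2 * ‖c‖) ^ 3 ≤ m / ‖b - c‖ ^ 3 := by gcongr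
  have g0 : 0 < m / (2 * ‖c‖) ^ 3 := by positivity
  have t1 : (m / ‖a - c‖ ^ 3) * dot c (a - c) ≤ (m / (2 * ‖c‖) ^ 3) * (- ‖c‖ ^ 2) := by
    calc (m / ‖a - c‖ ^ 3) * dot c (a - c) ≤ (m / ‖a - c‖ ^ 3) * (- ‖c‖ ^ 2) := by
          gcongr
      _ ≤ _ := by nlinarith [sq_nonneg ‖c‖]
  have t2 : (m / ‖b - c‖ ^ 3) * dot c (b - c) ≤ (m / (2 * ‖c‖) ^ 3) * (- ‖c‖ ^ 2) := by
    calc (m / ‖b - c‖ ^ 3) * dot c (b - c) ≤ (m / ‖b - c‖ ^ 3) * (- ‖c‖ ^ 2) := by
          gcongr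
      _ ≤ _ := by nlinarith [sq_nonneg ‖c‖]
  have e4 : (m / (2 * ‖c‖) ^ 3) * (- ‖c‖ ^ 2) + (m / (2 * ‖c‖) ^ 3) * (- ‖c‖ ^ 2)
      = - (m / (4 * ‖c‖)) := by
    field_simp
    ring
  rw [e3]
  linarith

namespace Sol

variable {m : ℝ} {a b c va vb vc : ℝ → ℂ}

/-- the third body cannot stay far away from a close pair for all times -/
lemma no_far (h : Sol m a b c va vb vc) {d M R : ℝ} (hd : 0 < d)
    (hJ : ∀ t, crs (a t) (va t) + crs (b t) (vb t) + crs (c t) (vc t) = 0)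
    (hab : ∀ t, ‖b t - a t‖ ≤ d) (hM : ∀ t, ‖va t‖ ≤ M ∧ ‖vb t‖ ≤ M)
    (hR1 : d ≤ R) (hR2 : 4 * (2 * d * M / 3) ^ 2 / m ≤ R) (hc : ∀ t, R < ‖c t‖) : False := by
  have hm := h.mpos
  have hc0 : ∀ t, 0 < ‖c t‖ := fun t => lt_trans (lt_of_lt_of_le hd hR1) (hc t)
  have hcn : ∀ t, c t ≠ 0 := fun t => norm_pos_iff.1 (hc0 t)
  refine no_concave (f := fun t => ‖c t‖) (f' := fun t => dot (c t) (vc t) / ‖c t‖)
    (f'' := fun t => crs (c t) (vc t) ^ 2 / ‖c t‖ ^ 3
      + dot (c t) (acc m (c t) (a t) (b t)) / ‖c t‖)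
    (fun t => hasDerivAt_norm' (h.dc t) (hcn t))
    (fun t => hasDerivAt_norm2 (h.dc t) (h.dvc t) (hcn t)) hc0 (fun t => ?_)
  have hf := far_force hm (h.sum t) (hab t) (hR1.trans (hc t).le) (hc0 t) (h.bc t) (h.ca t)
  -- angular momentum of the far body
  have hcr : crs (c t) (vc t) = - (1 / 3) * crs (b t - a t) (vb t - va t) := by
    have k1 := congrArg Complex.re (h.sum t)
    have k2 := congrArg Complex.im (h.sum t)
    have k3 := congrArg Complex.re (h.sumv t)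
    have k4 := congrArg Complex.im (h.sumv t)
    simp only [add_re, add_im, zero_re, zero_im] at k1 k2 k3 k4
    have hJt := hJ t
    have e1 : (c t).re = - (a t).re - (b t).re := by linarith
    have e2 : (c t).im = - (a t).im - (b t).im := by linarith
    have e3 : (vc t).re = - (va t).re - (vb t).re := by linarith
    have e4 : (vc t).im = - (va t).im - (vb t).im := by linarith
    simp only [crs, sub_re, sub_im, e1, e2, e3, e4] at hJt ⊢
    linear_combination (2 / 3) * hJt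
  have hcb : |crs (c t) (vc t)| ≤ 2 * d * M / 3 := by
    rw [hcr, abs_mul]
    have h1 := abs_crs_le (b t - a t) (vb t - va t)
    have h2 : ‖vb t - va t‖ ≤ 2 * M := (norm_sub_le _ _).trans (by linarith [(hM t).1, (hM t).2])
    have h3 : ‖b t - a t‖ * ‖vb t - va t‖ ≤ d * (2 * M) := by
      have := hab t
      gcongr
    have h4 : |(-(1 / 3 : ℝ))| = 1 / 3 := by rw [abs_neg]; norm_num
    rw [h4]
    linarith
  have hsq : crs (c t) (vc t) ^ 2 ≤ (2 * d * M / 3) ^ 2 := by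
    rw [← sq_abs]
    gcongr
  set N := ‖c t‖ with hN
  have hN0 : 0 < N := hc0 t
  have hRN : 4 * (2 * d * M / 3) ^ 2 / m < N := lt_of_le_of_lt hR2 (hc t)
  rw [div_lt_iff₀ hm] at hRN
  have e5 : crs (c t) (vc t) ^ 2 / N ^ 3 ≤ (2 * d * M / 3) ^ 2 / N ^ 3 := by gcongr
  have e6 : dot (c t) (acc m (c t) (a t) (b t)) / N ≤ - (m / (4 * N)) / N := by gcongr
  have e7 : (2 * d * M / 3) ^ 2 / N ^ 3 + - (m / (4 * N)) / N
      = (4 * (2 * d * M / 3) ^ 2 - N * m) / (4 * N ^ 3) := by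
    field_simp
    ring
  have e8 : (4 * (2 * d * M / 3) ^ 2 - N * m) / (4 * N ^ 3) < 0 := by
    apply div_neg_of_neg_of_pos
    · linarith
    · positivity
  linarith

/-- there is an instant at which the configuration has bounded size -/
theorem exists_small (h : Sol m a b c va vb vc) {e : ℝ} (he : 0 < e)
    (hU : ∀ t, e < U m (a t) (b t) (c t))
    (hM : ∀ t, ‖va t‖ ≤ 2 * √e ∧ ‖vb t‖ ≤ 2 * √e ∧ ‖vc t‖ ≤ 2 * √e)
    (hJ : ∀ t, crs (a t) (va t) + crs (b t) (vb t) + crs (c t) (vc t) = 0) :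
    ∃ t, ‖a t‖ ≤ 2 * (3 * m / e) + 4 * (2 * (3 * m / e) * (2 * √e) / 3) ^ 2 / m ∧
      ‖b t‖ ≤ 2 * (3 * m / e) + 4 * (2 * (3 * m / e) * (2 * √e) / 3) ^ 2 / m ∧
      ‖c t‖ ≤ 2 * (3 * m / e) + 4 * (2 * (3 * m / e) * (2 * √e) / 3) ^ 2 / m := by
  have hm := h.mpos
  set d := 3 * m / e with hd
  have hd0 : 0 < d := by positivity
  set H := 4 * (2 * d * (2 * √e) / 3) ^ 2 / m with hH
  have hH0 : 0 ≤ H := by positivity
  by_contra hcon
  push Not at hcon
  -- cover
  have hcover : ∀ t, ‖b t - a t‖ ≤ d ∨ ‖c t - b t‖ ≤ d ∨ ‖a t - c t‖ ≤ d := by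
    intro t
    by_contra hc
    push Not at hc
    obtain ⟨h1, h2, h3⟩ := hc
    have := hU t
    unfold U at this
    have k1 : 1 / ‖b t - a t‖ < 1 / d := one_div_lt_one_div_of_lt hd0 h1
    have k2 : 1 / ‖c t - b t‖ < 1 / d := one_div_lt_one_div_of_lt hd0 h2
    have k3 : 1 / ‖a t - c t‖ < 1 / d := one_div_lt_one_div_of_lt hd0 h3
    have k4 : m * (1 / ‖b t - a t‖ + 1 / ‖c t - b t‖ + 1 / ‖a t - c t‖) < m * (1 / d + 1 / d + 1 / d) := by
      gcongr
    have k5 : m * (1 / d + 1 / d + 1 / d) = e := by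
      rw [hd]; field_simp; ring
    linarith
  -- two close pairs force smallness
  have hsmall : ∀ {x y z : ℂ}, x + y + z = 0 → ‖y - x‖ ≤ d → ‖z - y‖ ≤ d →
      ‖x‖ ≤ 2 * d + H ∧ ‖y‖ ≤ 2 * d + H ∧ ‖z‖ ≤ 2 * d + H := by
    intro x y z hs h1 h2
    have ex : x = (1 / 3 : ℂ) * (-(2 * (y - x)) - (z - y)) := by linear_combination (1 / 3) * hs
    have ey : y = (1 / 3 : ℂ) * ((y - x) - (z - y)) := by linear_combination (1 / 3) * hs
    have ez : z = (1 / 3 : ℂ) * ((y - x) + 2 * (z - y)) := by linear_combination (1 / 3) * hs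
    have n3 : ‖(1 / 3 : ℂ)‖ = 1 / 3 := by norm_num
    have n2 : ‖(2 : ℂ)‖ = 2 := by norm_num
    refine ⟨?_, ?_, ?_⟩
    · rw [ex, norm_mul, n3]
      have : ‖-(2 * (y - x)) - (z - y)‖ ≤ 2 * d + d := by
        refine (norm_sub_le _ _).trans ?_
        rw [norm_neg, norm_mul, n2]
        linarith
      linarith
    · rw [ey, norm_mul, n3]
      have : ‖(y - x) - (z - y)‖ ≤ d + d := (norm_sub_le _ _).trans (by linarith)
      linarith
    · rw [ez, norm_mul, n3]
      have : ‖(y - x) + 2 * (z - y)‖ ≤ d + 2 * d := by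
        refine (norm_add_le _ _).trans ?_
        rw [norm_mul, n2]
        linarith
      linarith
  have hcont : ∀ {x v : ℝ → ℂ}, (∀ t, HasDerivAt x (v t) t) → Continuous x := fun h =>
    continuous_iff_continuousAt.2 fun t => (h t).continuousAt
  have ca := hcont h.da
  have cb := hcont h.db
  have cc := hcont h.dc
  have cl1 : IsClosed {t : ℝ | ‖b t - a t‖ ≤ d} := isClosed_le (cb.sub ca).norm continuous_const
  have cl2 : IsClosed {t : ℝ | ‖c t - b t‖ ≤ d} := isClosed_le (cc.sub cb).norm continuous_const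
  have cl3 : IsClosed {t : ℝ | ‖a t - c t‖ ≤ d} := isClosed_le (ca.sub cc).norm continuous_const
  have d12 : ∀ t, ‖b t - a t‖ ≤ d → ‖c t - b t‖ ≤ d → False := by
    intro t h1 h2
    obtain ⟨g1, g2, g3⟩ := hsmall (h.sum t) h1 h2
    exact absurd (hcon t g1 g2) (not_lt.2 g3)
  have d23 : ∀ t, ‖c t - b t‖ ≤ d → ‖a t - c t‖ ≤ d → False := by
    intro t h1 h2
    obtain ⟨g1, g2, g3⟩ := hsmall (h.rot.sum t) h1 h2
    exact absurd (hcon t g3 g1) (not_lt.2 g2)
  have d31 : ∀ t, ‖a t - c t‖ ≤ d → ‖b t - a t‖ ≤ d → False := by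
    intro t h1 h2
    obtain ⟨g1, g2, g3⟩ := hsmall (h.rot.rot.sum t) h1 h2
    exact absurd (hcon t g2 g3) (not_lt.2 g1)
  -- the pair is the same for all times
  have hclopen : ∀ {A B C : Set ℝ}, IsClosed A → IsClosed B → IsClosed C → A ∪ B ∪ C = Set.univ →
      (∀ t ∈ A, t ∉ B) → (∀ t ∈ A, t ∉ C) → A = ∅ ∨ A = Set.univ := by
    intro A B C hA hB hC hcov h1 h2
    have : IsClopen A := by
      refine ⟨hA, ?_⟩
      have e : A = (B ∪ C)ᶜ := by
        ext t
        constructor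
        · intro ht hbc
          rcases hbc with hb | hb
          · exact h1 t ht hb
          · exact h2 t ht hb
        · intro ht
          have : t ∈ A ∪ B ∪ C := by rw [hcov]; trivial
          rcases this with (h3 | h3) | h3
          · exact h3
          · exact absurd (Or.inl h3) ht
          · exact absurd (Or.inr h3) ht
      rw [e]
      exact (hB.union hC).isOpen_compl
    exact isClopen_iff.1 this
  have cov1 : {t : ℝ | ‖b t - a t‖ ≤ d} ∪ {t : ℝ | ‖c t - b t‖ ≤ d} ∪ {t : ℝ | ‖a t - c t‖ ≤ d}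
      = Set.univ := by
    ext t
    simp only [Set.mem_union, Set.mem_ofPred_eq, Set.mem_univ, iff_true]
    rcases hcover t with h1 | h1 | h1
    · exact Or.inl (Or.inl h1)
    · exact Or.inl (Or.inr h1)
    · exact Or.inr h1
  have hfar : ∀ {x y z vx vy vz : ℝ → ℂ}, Sol m x y z vx vy vz →
      (∀ t, crs (x t) (vx t) + crs (y t) (vy t) + crs (z t) (vz t) = 0) →
      (∀ t, ‖vx t‖ ≤ 2 * √e ∧ ‖vy t‖ ≤ 2 * √e) → (∀ t, ‖y t - x t‖ ≤ d) →
      (∀ t, ‖x t‖ ≤ 2 * d + H → ‖y t‖ ≤ 2 * d + H → 2 * d + H < ‖z t‖) → False := by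
    intro x y z vx vy vz hsol hj hv hxy hbig
    refine hsol.no_far (d := d) (M := 2 * √e) (R := d + H) hd0 hj hxy hv (by linarith)
      (by linarith) (fun t => ?_)
    by_contra hz
    push Not at hz
    have hs := hsol.sum t
    have ex : x t = (-(1 / 2) : ℂ) * (z t) - (1 / 2 : ℂ) * (y t - x t) := by
      linear_combination (1 / 2) * hs
    have ey : y t = (-(1 / 2) : ℂ) * (z t) + (1 / 2 : ℂ) * (y t - x t) := by
      linear_combination (1 / 2) * hs
    have n1 : ‖(-(1 / 2) : ℂ)‖ = 1 / 2 := by rw [norm_neg]; norm_num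
    have n2 : ‖(1 / 2 : ℂ)‖ = 1 / 2 := by norm_num
    have hx : ‖x t‖ ≤ 2 * d + H := by
      rw [ex]
      refine (norm_sub_le _ _).trans ?_
      rw [norm_mul, norm_mul, n1, n2]
      have := hxy t
      linarith
    have hy : ‖y t‖ ≤ 2 * d + H := by
      rw [ey]
      refine (norm_add_le _ _).trans ?_
      rw [norm_mul, norm_mul, n1, n2]
      have := hxy t
      linarith
    have := hbig t hx hy
    linarith
  rcases hclopen cl1 cl2 cl3 cov1 (fun t => d12 t) (fun t h1 h2 => d31 t h2 h1) with k1 | k1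
  · rcases hclopen cl2 cl1 cl3 (by rw [← cov1]; ext t; simp only [Set.mem_union]; tauto)
      (fun t h1 h2 => d12 t h2 h1) (fun t => d23 t) with k2 | k2
    · -- third set is everything
      have k3 : ∀ t, ‖a t - c t‖ ≤ d := by
        intro t
        rcases hcover t with h1 | h1 | h1
        · exfalso
          have : t ∈ ({t : ℝ | ‖b t - a t‖ ≤ d}) := h1
          rw [k1] at this; exact this
        · exfalso
          have : t ∈ ({t : ℝ | ‖c t - b t‖ ≤ d}) := h1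
          rw [k2] at this; exact this
        · exact h1
      exact hfar h.rot.rot (fun t => by linarith [hJ t]) (fun t => ⟨(hM t).2.2, (hM t).1⟩) k3
        (fun t h1 h2 => by
          by_contra h3
          push Not at h3
          exact absurd (hcon t h2 h3) (not_lt.2 h1))
    · have k2' : ∀ t, ‖c t - b t‖ ≤ d := fun t => by
        have : t ∈ ({t : ℝ | ‖c t - b t‖ ≤ d}) := by rw [k2]; trivial
        exact this
      exact hfar h.rot (fun t => by linarith [hJ t]) (fun t => ⟨(hM t).2.1, (hM t).2.2⟩) k2'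
        (fun t h1 h2 => by
          by_contra h3
          push Not at h3
          exact absurd (hcon t h3 h1) (not_lt.2 h2))
  · have k1' : ∀ t, ‖b t - a t‖ ≤ d := fun t => by
      have : t ∈ ({t : ℝ | ‖b t - a t‖ ≤ d}) := by rw [k1]; trivial
      exact this
    exact hfar h hJ (fun t => ⟨(hM t).1, (hM t).2.1⟩) k1' (fun t h1 h2 => hcon t h1 h2)

end Sol

end Pool.Agent.H908R3.Vir
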