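import Pool.Agent.H908R3.Vir.Far

set_option autoImplicit false

namespace Pool.Agent.H908R3.Vir

open Complex Filter Topology

/-- a near-virial solution -/
structure Near (m e η : ℝ) (a b c va vb vc : ℝ → ℂ) : Prop extends Sol m a b c va vb vc where
  hU : ∀ t, |U m (a t) (b t) (c t) - 2 * e| ≤ η
  hK : ∀ t, dot (va t) (va t) + dot (vb t) (vb t) + dot (vc t) (vc t)
    = 2 * (U m (a t) (b t) (c t) - e)
  hJ : ∀ t, crs (a t) (va t) + crs (b t) (vb t) + crs (c t) (vc t) = 0

lemma Near.shift {m e η : ℝ} {a b c va vb vc : ℝ → ℂ} (h : Near m e η a b c va vb vc) (s : ℝ) :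
    Near m e η (fun t => a (s + t)) (fun t => b (s + t)) (fun t => c (s + t))
      (fun t => va (s + t)) (fun t => vb (s + t)) (fun t => vc (s + t)) where
  toSol := h.toSol.shift s
  hU := fun t => h.hU _
  hK := fun t => h.hK _
  hJ := fun t => h.hJ _

lemma Near.bounds {m e η : ℝ} {a b c va vb vc : ℝ → ℂ} (h : Near m e η a b c va vb vc)
    (he : 0 < e) (hη : η < e) (t : ℝ) :
    (m / (3 * e) ≤ ‖b t - a t‖ ∧ m / (3 * e) ≤ ‖c t - b t‖ ∧ m / (3 * e) ≤ ‖a t - c t‖) ∧
    (‖va t‖ ≤ 2 * √e ∧ ‖vb t‖ ≤ 2 * √e ∧ ‖vc t‖ ≤ 2 * √e) := by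
  have hU := abs_le.1 (h.hU t)
  have hK := h.hK t
  have hm := h.mpos
  have hU3 : U m (a t) (b t) (c t) ≤ 3 * e := by linarith [hU.2]
  have r3 : 0 < ‖b t - a t‖ := norm_pos_iff.2 (h.ab t)
  have r1 : 0 < ‖c t - b t‖ := norm_pos_iff.2 (h.bc t)
  have r2 : 0 < ‖a t - c t‖ := norm_pos_iff.2 (h.ca t)
  rw [dot_self, dot_self, dot_self] at hK
  have hK4 : ‖va t‖ ^ 2 + ‖vb t‖ ^ 2 + ‖vc t‖ ^ 2 ≤ 4 * e := by linarith
  unfold U at hU3
  have p3 : 0 < 1 / ‖b t - a t‖ := by positivity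
  have p1 : 0 < 1 / ‖c t - b t‖ := by positivity
  have p2 : 0 < 1 / ‖a t - c t‖ := by positivity
  have key : ∀ r : ℝ, 0 < r → m * (1 / r) ≤ 3 * e → m / (3 * e) ≤ r := by
    intro r hr h1
    rw [div_le_iff₀ (by positivity)]
    have : m * (1 / r) * r = m := by field_simp
    nlinarith
  have hs : (2 * √e) ^ 2 = 4 * e := by
    rw [mul_pow, Real.sq_sqrt he.le]; ring
  refine ⟨⟨key _ r3 ?_, key _ r1 ?_, key _ r2 ?_⟩, ⟨?_, ?_, ?_⟩⟩
  · nlinarith
  · nlinarith
  · nlinarith
  · apply le_of_sq_le_sq _ (by positivity)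
    rw [hs]; nlinarith [sq_nonneg ‖va t‖, sq_nonneg ‖vb t‖, sq_nonneg ‖vc t‖]
  · apply le_of_sq_le_sq _ (by positivity)
    rw [hs]; nlinarith [sq_nonneg ‖va t‖, sq_nonneg ‖vb t‖, sq_nonneg ‖vc t‖]
  · apply le_of_sq_le_sq _ (by positivity)
    rw [hs]; nlinarith [sq_nonneg ‖va t‖, sq_nonneg ‖vb t‖, sq_nonneg ‖vc t‖]

/-- **Main theorem in normalised form.** -/
theorem no_near {m e : ℝ} (hm : 0 < m) (he : 0 < e) :
    ∃ η : ℝ, 0 < η ∧ ∀ a b c va vb vc : ℝ → ℂ, ¬ Near m e η a b c va vb vc := by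
  by_contra hcon
  push Not at hcon
  have hη : ∀ n : ℕ, 0 < e / 2 / ((n : ℝ) + 1) := fun n => by positivity
  choose a b c va vb vc hN using fun n : ℕ => hcon (e / 2 / ((n : ℝ) + 1)) (hη n)
  have hηe : ∀ n : ℕ, e / 2 / ((n : ℝ) + 1) < e := by
    intro n
    have h1 : e / 2 / ((n : ℝ) + 1) ≤ e / 2 := by
      apply div_le_self (by positivity)
      have : (0:ℝ) ≤ n := Nat.cast_nonneg n
      linarith
    linarith
  have hsm : ∀ n, ∃ t, _ := fun n => (hN n).toSol.exists_small he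
    (fun t => by
      have := abs_le.1 ((hN n).hU t)
      linarith [hηe n, this.1])
    (fun t => ((hN n).bounds he (hηe n) t).2) (hN n).hJ
  choose τ hτ using hsm
  obtain ⟨a', b', c', va', vb', vc', ha, hb, hc, hva, hvb, hvc, hd, hsol⟩ :=
    exists_limit (m := m) (δ := m / (3 * e)) (M := 2 * √e)
      (R := 2 * (3 * m / e) + 4 * (2 * (3 * m / e) * (2 * √e) / 3) ^ 2 / m) hm (by positivity)
      (a := fun n t => a n (τ n + t)) (b := fun n t => b n (τ n + t))
      (c := fun n t => c n (τ n + t)) (va := fun n t => va n (τ n + t))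
      (vb := fun n t => vb n (τ n + t)) (vc := fun n t => vc n (τ n + t))
      (fun n => (hN n).toSol.shift (τ n))
      (fun n t => ((hN n).bounds he (hηe n) _).1) (fun n t => ((hN n).bounds he (hηe n) _).2)
      (fun n => by simpa using hτ n)
  have hlim0 : Tendsto (fun n : ℕ => e / 2 / ((n : ℝ) + 1)) (hyperfilter ℕ : Filter ℕ) (𝓝 0) := by
    have h1 : Tendsto (fun n : ℕ => e / 2 / ((n : ℝ) + 1)) atTop (𝓝 0) :=
      tendsto_const_nhds.div_atTop (tendsto_atTop_add_const_right _ _ tendsto_natCast_atTop_atTop)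
    exact h1.mono_left Nat.hyperfilter_le_atTop
  have hUlim : ∀ t, Tendsto (fun n => U m (a n (τ n + t)) (b n (τ n + t)) (c n (τ n + t)))
      (hyperfilter ℕ : Filter ℕ) (𝓝 (U m (a' t) (b' t) (c' t))) := fun t =>
    tendsto_U (m := m) (ha t) (hb t) (hc t) (hsol.ab t) (hsol.bc t) (hsol.ca t)
  have hU : ∀ t, U m (a' t) (b' t) (c' t) = 2 * e := by
    intro t
    have h1 : Tendsto (fun n => |U m (a n (τ n + t)) (b n (τ n + t)) (c n (τ n + t)) - 2 * e|)
      (hyperfilter ℕ : Filter ℕ) (𝓝 |U m (a' t) (b' t) (c' t) - 2 * e|) :=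
      ((hUlim t).sub_const _).abs
    have h2 : |U m (a' t) (b' t) (c' t) - 2 * e| ≤ 0 :=
      le_of_tendsto_of_tendsto h1 hlim0 (Eventually.of_forall fun n => (hN n).hU _)
    have := abs_nonpos_iff.1 h2
    linarith
  have hK : ∀ t, dot (va' t) (va' t) + dot (vb' t) (vb' t) + dot (vc' t) (vc' t) = 2 * e := by
    intro t
    have h1 := ((tendsto_dot (hva t) (hva t)).add (tendsto_dot (hvb t) (hvb t))).add
        (tendsto_dot (hvc t) (hvc t))
    have h2 := ((hUlim t).sub_const e).const_mul 2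
    have h3 : (fun n => dot (va n (τ n + t)) (va n (τ n + t)) + dot (vb n (τ n + t)) (vb n (τ n + t))
      + dot (vc n (τ n + t)) (vc n (τ n + t))) =
      fun n => 2 * (U m (a n (τ n + t)) (b n (τ n + t)) (c n (τ n + t)) - e) := by
      funext n; exact (hN n).hK _
    rw [h3] at h1
    have := tendsto_nhds_unique h1 h2
    rw [this, hU t]
    ring
  have hJ : ∀ t, crs (a' t) (va' t) + crs (b' t) (vb' t) + crs (c' t) (vc' t) = 0 := by
    intro t
    have h1 := ((tendsto_crs (ha t) (hva t)).add (tendsto_crs (hb t) (hvb t))).add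
        (tendsto_crs (hc t) (hvc t))
    have h3 : (fun n => crs (a n (τ n + t)) (va n (τ n + t)) + crs (b n (τ n + t)) (vb n (τ n + t))
      + crs (c n (τ n + t)) (vc n (τ n + t))) = fun _ => 0 := by
      funext n; exact (hN n).hJ _
    rw [h3] at h1
    exact tendsto_nhds_unique h1 tendsto_const_nhds
  -- the moment of inertia is constant
  set I : ℝ → ℝ := fun s => dot (a' s) (a' s) + dot (b' s) (b' s) + dot (c' s) (c' s) with hI
  set I' : ℝ → ℝ := fun t => 2 * (dot (a' t) (va' t) + dot (b' t) (vb' t) + dot (c' t) (vc' t))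
    with hI'
  have hd1 : ∀ t, HasDerivAt I (I' t) t := hsol.dI
  have hd2 : ∀ t, HasDerivAt I' 0 t := by
    intro t
    have := hsol.ddI t
    rw [hK t, hU t] at this
    simpa using this
  have hIc : ∀ t, I' t = I' 0 := by
    intro t
    exact is_const_of_deriv_eq_zero (fun x => (hd2 x).differentiableAt) (fun x => (hd2 x).deriv) t 0
  have hlin : ∀ t, I t = I 0 + I' 0 * t := by
    intro t
    have h1 : ∀ x, HasDerivAt (fun s => I s - I' 0 * s) 0 x := by
      intro x
      have h2 : HasDerivAt (fun s => I s - I' 0 * s) (I' x - I' 0 * 1) x :=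
        (hd1 x).sub ((hasDerivAt_id x).const_mul (I' 0))
      rw [hIc x] at h2
      simpa using h2
    have := is_const_of_deriv_eq_zero (fun x => (h1 x).differentiableAt) (fun x => (h1 x).deriv) t 0
    linarith
  have hI0 : I' 0 = 0 := by
    by_contra hne
    have hpos : ∀ t, 0 ≤ I t := fun t => by
      have := dot_self_nonneg (a' t)
      have := dot_self_nonneg (b' t)
      have := dot_self_nonneg (c' t)
      simp only [hI]
      linarith
    have h1 := hpos (-(I 0 + 1) / I' 0)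
    rw [hlin] at h1
    have : I' 0 * (-(I 0 + 1) / I' 0) = -(I 0 + 1) := by field_simp
    rw [this] at h1
    linarith
  have hIconst : ∀ t, dot (a' t) (a' t) + dot (b' t) (b' t) + dot (c' t) (c' t) = I 0 := by
    intro t
    have := hlin t
    rw [hI0, zero_mul, add_zero] at this
    exact this
  exact no_exact (m := m) (e := e) (I0 := I 0) (a := a') (b := b') (c := c') (va := va')
    (vb := vb') (vc := vc') { toSol := hsol, hU := hU, hK := hK, hI := hIconst, hJ := hJ }

end Pool.Agent.H908R3.Vir
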