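import Pool.Agent.H908R3.Vir.Sol

set_option autoImplicit false

namespace Pool.Agent.H908R3.Vir

open Complex Filter Topology

lemma real_lip {m δ x y d : ℝ} (hm : 0 < m) (hδ : 0 < δ) (hx : δ ≤ x) (hy : δ ≤ y)
    (hd : |x - y| ≤ d) : |m / x ^ 3 - m / y ^ 3| * y ≤ 3 * m / δ ^ 3 * d := by
  have hx0 : 0 < x := lt_of_lt_of_le hδ hx
  have hy0 : 0 < y := lt_of_lt_of_le hδ hy
  have e : m / x ^ 3 - m / y ^ 3 = m * (y - x) * ((x ^ 2 + x * y + y ^ 2) / (x ^ 3 * y ^ 3)) := by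
    field_simp
    ring
  rw [e, abs_mul, abs_mul, abs_of_pos hm,
    abs_of_pos (show 0 < (x ^ 2 + x * y + y ^ 2) / (x ^ 3 * y ^ 3) by positivity), abs_sub_comm]
  have e2 : (x ^ 2 + x * y + y ^ 2) / (x ^ 3 * y ^ 3) * y
      = 1 / (x * y ^ 2) + 1 / (x ^ 2 * y) + 1 / x ^ 3 := by
    field_simp
  have b1 : 1 / (x * y ^ 2) ≤ 1 / δ ^ 3 := by
    apply one_div_le_one_div_of_le (by positivity)
    calc δ ^ 3 = δ * δ ^ 2 := by ring
      _ ≤ x * y ^ 2 := by gcongr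
  have b2 : 1 / (x ^ 2 * y) ≤ 1 / δ ^ 3 := by
    apply one_div_le_one_div_of_le (by positivity)
    calc δ ^ 3 = δ ^ 2 * δ := by ring
      _ ≤ x ^ 2 * y := by gcongr
  have b3 : 1 / x ^ 3 ≤ 1 / δ ^ 3 := by
    apply one_div_le_one_div_of_le (by positivity)
    gcongr
  calc m * |x - y| * ((x ^ 2 + x * y + y ^ 2) / (x ^ 3 * y ^ 3)) * y
      = m * |x - y| * ((x ^ 2 + x * y + y ^ 2) / (x ^ 3 * y ^ 3) * y) := by ring
    _ = m * |x - y| * (1 / (x * y ^ 2) + 1 / (x ^ 2 * y) + 1 / x ^ 3) := by rw [e2]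
    _ ≤ m * d * (1 / δ ^ 3 + 1 / δ ^ 3 + 1 / δ ^ 3) := by
        have : 0 ≤ d := (abs_nonneg _).trans hd
        gcongr
    _ = 3 * m / δ ^ 3 * d := by ring

lemma field_lip {m δ : ℝ} (hm : 0 < m) (hδ : 0 < δ) {p q : ℂ} (hp : δ ≤ ‖p‖) (hq : δ ≤ ‖q‖) :
    ‖(m / ‖p‖ ^ 3) • p - (m / ‖q‖ ^ 3) • q‖ ≤ 4 * m / δ ^ 3 * ‖p - q‖ := by
  have hp0 : 0 < ‖p‖ := lt_of_lt_of_le hδ hp
  have e : (m / ‖p‖ ^ 3) • p - (m / ‖q‖ ^ 3) • q
      = (m / ‖p‖ ^ 3) • (p - q) + (m / ‖p‖ ^ 3 - m / ‖q‖ ^ 3) • q := by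
    rw [smul_sub, sub_smul]; abel
  rw [e]
  refine (norm_add_le _ _).trans ?_
  rw [norm_smul, norm_smul, Real.norm_eq_abs, Real.norm_eq_abs]
  have h1 := real_lip hm hδ hp hq (abs_norm_sub_norm_le p q)
  have h2 : |m / ‖p‖ ^ 3| ≤ m / δ ^ 3 := by
    rw [abs_of_pos (by positivity)]
    gcongr
  calc _ ≤ m / δ ^ 3 * ‖p - q‖ + 3 * m / δ ^ 3 * ‖p - q‖ := by
        gcongr
    _ = _ := by ring

lemma field_bd {m δ : ℝ} (hm : 0 < m) (hδ : 0 < δ) {p : ℂ} (hp : δ ≤ ‖p‖) :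
    ‖(m / ‖p‖ ^ 3) • p‖ ≤ m / δ ^ 2 := by
  have hp0 : 0 < ‖p‖ := lt_of_lt_of_le hδ hp
  rw [norm_smul, Real.norm_eq_abs, abs_of_pos (by positivity)]
  have : m / ‖p‖ ^ 3 * ‖p‖ = m / ‖p‖ ^ 2 := by field_simp
  rw [this]
  gcongr

lemma curve_lip {x v : ℝ → ℂ} {M : ℝ} (h : ∀ t, HasDerivAt x (v t) t) (hM : ∀ t, ‖v t‖ ≤ M)
    (s t : ℝ) : ‖x s - x t‖ ≤ M * |s - t| := by
  have := convex_univ.norm_image_sub_le_of_norm_hasDerivWithin_le (f := x) (f' := v) (C := M)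
    (x := t) (y := s) (fun y _ => (h y).hasDerivWithinAt) (fun y _ => hM y) (Set.mem_univ _)
    (Set.mem_univ _)
  rwa [Real.norm_eq_abs] at this

/-- existence of ultrafilter limits of bounded sequences -/
lemma exists_ulim {f : ℕ → ℂ} {R : ℝ} (hR : ∀ n, ‖f n‖ ≤ R) :
    ∃ z, Tendsto f (hyperfilter ℕ : Filter ℕ) (𝓝 z) := by
  have hc := isCompact_closedBall (0:ℂ) R
  obtain ⟨z, _, hz⟩ := hc.ultrafilter_le_nhds ((hyperfilter ℕ).map f) (by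
    rw [Ultrafilter.coe_map, le_principal_iff]
    exact Filter.mem_map.2 (Filter.univ_mem' (fun n => by simpa using hR n)))
  exact ⟨z, hz⟩

/-- **Limit lemma**: uniformly bounded families of solutions have limit solutions. -/
theorem exists_limit {m δ M R : ℝ} (hm : 0 < m) (hδ : 0 < δ) {a b c va vb vc : ℕ → ℝ → ℂ}
    (hs : ∀ n, Sol m (a n) (b n) (c n) (va n) (vb n) (vc n))
    (hd : ∀ n t, δ ≤ ‖b n t - a n t‖ ∧ δ ≤ ‖c n t - b n t‖ ∧ δ ≤ ‖a n t - c n t‖)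
    (hM : ∀ n t, ‖va n t‖ ≤ M ∧ ‖vb n t‖ ≤ M ∧ ‖vc n t‖ ≤ M)
    (hR : ∀ n, ‖a n 0‖ ≤ R ∧ ‖b n 0‖ ≤ R ∧ ‖c n 0‖ ≤ R) :
    ∃ a' b' c' va' vb' vc' : ℝ → ℂ,
      (∀ t, Tendsto (fun n => a n t) (hyperfilter ℕ : Filter ℕ) (𝓝 (a' t))) ∧
      (∀ t, Tendsto (fun n => b n t) (hyperfilter ℕ : Filter ℕ) (𝓝 (b' t))) ∧
      (∀ t, Tendsto (fun n => c n t) (hyperfilter ℕ : Filter ℕ) (𝓝 (c' t))) ∧
      (∀ t, Tendsto (fun n => va n t) (hyperfilter ℕ : Filter ℕ) (𝓝 (va' t))) ∧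
      (∀ t, Tendsto (fun n => vb n t) (hyperfilter ℕ : Filter ℕ) (𝓝 (vb' t))) ∧
      (∀ t, Tendsto (fun n => vc n t) (hyperfilter ℕ : Filter ℕ) (𝓝 (vc' t))) ∧
      (∀ t, δ ≤ ‖b' t - a' t‖ ∧ δ ≤ ‖c' t - b' t‖ ∧ δ ≤ ‖a' t - c' t‖) ∧
      Sol m a' b' c' va' vb' vc' := by
  have hpos : ∀ {x v : ℕ → ℝ → ℂ}, (∀ n t, HasDerivAt (x n) (v n t) t) → (∀ n t, ‖v n t‖ ≤ M) →
      (∀ n, ‖x n 0‖ ≤ R) → ∀ t, ∃ z, Tendsto (fun n => x n t) (hyperfilter ℕ : Filter ℕ) (𝓝 z) := by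
    intro x v h1 h2 h3 t
    refine exists_ulim (R := R + M * |t|) (fun n => ?_)
    have := curve_lip (h1 n) (h2 n) t 0
    rw [sub_zero] at this
    calc ‖x n t‖ = ‖x n 0 + (x n t - x n 0)‖ := by congr 1; ring
      _ ≤ ‖x n 0‖ + ‖x n t - x n 0‖ := norm_add_le _ _
      _ ≤ _ := add_le_add (h3 n) this
  choose a' ha' using hpos (fun n => (hs n).da) (fun n t => (hM n t).1) (fun n => (hR n).1)
  choose b' hb' using hpos (fun n => (hs n).db) (fun n t => (hM n t).2.1) (fun n => (hR n).2.1)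
  choose c' hc' using hpos (fun n => (hs n).dc) (fun n t => (hM n t).2.2) (fun n => (hR n).2.2)
  have hvel : ∀ {v : ℕ → ℝ → ℂ}, (∀ n t, ‖v n t‖ ≤ M) → ∀ t,
      ∃ z, Tendsto (fun n => v n t) (hyperfilter ℕ : Filter ℕ) (𝓝 z) :=
    fun h t => exists_ulim (fun n => h n t)
  choose va' hva' using hvel (fun n t => (hM n t).1)
  choose vb' hvb' using hvel (fun n t => (hM n t).2.1)
  choose vc' hvc' using hvel (fun n t => (hM n t).2.2)
  have hM0 : 0 ≤ M := (norm_nonneg _).trans (hM 0 0).1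
  -- distances of the limit
  have hd' : ∀ t, δ ≤ ‖b' t - a' t‖ ∧ δ ≤ ‖c' t - b' t‖ ∧ δ ≤ ‖a' t - c' t‖ := fun t =>
    ⟨ge_of_tendsto ((hb' t).sub (ha' t)).norm (Eventually.of_forall fun n => (hd n t).1),
      ge_of_tendsto ((hc' t).sub (hb' t)).norm (Eventually.of_forall fun n => (hd n t).2.1),
      ge_of_tendsto ((ha' t).sub (hc' t)).norm (Eventually.of_forall fun n => (hd n t).2.2)⟩
  have hne : ∀ {z : ℂ}, δ ≤ ‖z‖ → z ≠ 0 := fun {z} h h0 => by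
    rw [h0, norm_zero] at h; linarith
  -- a generic statement about the pair field
  have hfield : ∀ {p : ℕ → ℂ} {q : ℂ}, Tendsto p (hyperfilter ℕ : Filter ℕ) (𝓝 q) → δ ≤ ‖q‖ →
      Tendsto (fun n => (m / ‖p n‖ ^ 3) • p n) (hyperfilter ℕ : Filter ℕ)
        (𝓝 ((m / ‖q‖ ^ 3) • q)) := by
    intro p q hp hq
    have hq0 : 0 < ‖q‖ := lt_of_lt_of_le hδ hq
    exact ((tendsto_const_nhds.div (hp.norm.pow 3) (by positivity)).smul hp)
  -- acceleration convergence, bound, Lipschitz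
  have hacc : ∀ {x y z : ℕ → ℂ} {x' y' z' : ℂ}, Tendsto x (hyperfilter ℕ : Filter ℕ) (𝓝 x') →
      Tendsto y (hyperfilter ℕ : Filter ℕ) (𝓝 y') → Tendsto z (hyperfilter ℕ : Filter ℕ) (𝓝 z') →
      δ ≤ ‖y' - x'‖ → δ ≤ ‖x' - z'‖ →
      Tendsto (fun n => acc m (x n) (y n) (z n)) (hyperfilter ℕ : Filter ℕ)
        (𝓝 (acc m x' y' z')) := by
    intro x y z x' y' z' hx hy hz h1 h2
    exact (hfield (hy.sub hx) h1).add (hfield (hz.sub hx) (by rwa [norm_sub_rev]))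
  have habd : ∀ {x y z : ℂ}, δ ≤ ‖y - x‖ → δ ≤ ‖x - z‖ → ‖acc m x y z‖ ≤ 2 * (m / δ ^ 2) := by
    intro x y z h1 h2
    unfold acc
    refine (norm_add_le _ _).trans ?_
    have := field_bd hm hδ h1
    have := field_bd hm hδ (p := z - x) (by rwa [norm_sub_rev])
    linarith
  have halip : ∀ {x y z X Y Z : ℂ} {r : ℝ}, δ ≤ ‖y - x‖ → δ ≤ ‖x - z‖ → δ ≤ ‖Y - X‖ →
      δ ≤ ‖X - Z‖ → ‖x - X‖ ≤ M * r → ‖y - Y‖ ≤ M * r → ‖z - Z‖ ≤ M * r →
      ‖acc m x y z - acc m X Y Z‖ ≤ (16 * m / δ ^ 3 * M) * r := by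
    intro x y z X Y Z r h1 h2 h3 h4 g1 g2 g3
    unfold acc
    have k1 := field_lip hm hδ h1 h3
    have k2 := field_lip hm hδ (p := z - x) (q := Z - X) (by rwa [norm_sub_rev])
      (by rwa [norm_sub_rev])
    have t1 : ‖(y - x) - (Y - X)‖ ≤ 2 * M * r := by
      calc ‖(y - x) - (Y - X)‖ = ‖(y - Y) - (x - X)‖ := by congr 1; ring
        _ ≤ ‖y - Y‖ + ‖x - X‖ := norm_sub_le _ _
        _ ≤ _ := by linarith
    have t2 : ‖(z - x) - (Z - X)‖ ≤ 2 * M * r := by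
      calc ‖(z - x) - (Z - X)‖ = ‖(z - Z) - (x - X)‖ := by congr 1; ring
        _ ≤ ‖z - Z‖ + ‖x - X‖ := norm_sub_le _ _
        _ ≤ _ := by linarith
    calc _ = ‖((m / ‖y - x‖ ^ 3) • (y - x) - (m / ‖Y - X‖ ^ 3) • (Y - X))
          + ((m / ‖z - x‖ ^ 3) • (z - x) - (m / ‖Z - X‖ ^ 3) • (Z - X))‖ := by
          congr 1; abel
      _ ≤ _ := norm_add_le _ _
      _ ≤ 4 * m / δ ^ 3 * (2 * M * r) + 4 * m / δ ^ 3 * (2 * M * r) := by
          refine add_le_add (k1.trans ?_) (k2.trans ?_)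
          · gcongr
          · gcongr
      _ = _ := by ring
  refine ⟨a', b', c', va', vb', vc', ha', hb', hc', hva', hvb', hvc', hd', ?_⟩
  have La := fun n => curve_lip (hs n).da (fun t => (hM n t).1)
  have Lb := fun n => curve_lip (hs n).db (fun t => (hM n t).2.1)
  have Lc := fun n => curve_lip (hs n).dc (fun t => (hM n t).2.2)
  exact {
    mpos := hm
    ab := fun t => hne (hd' t).1
    bc := fun t => hne (hd' t).2.1
    ca := fun t => hne (hd' t).2.2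
    sum := fun t => by
      have h1 := ((ha' t).add (hb' t)).add (hc' t)
      have h2 : (fun n => a n t + b n t + c n t) = fun _ => (0:ℂ) := by
        funext n; exact (hs n).sum t
      rw [h2] at h1
      exact tendsto_nhds_unique h1 tendsto_const_nhds
    da := lim_deriv (fun n => (hs n).da)
      (fun n => curve_lip (hs n).dva (fun t => habd (hd n t).1 (hd n t).2.2)) ha' hva'
    db := lim_deriv (fun n => (hs n).db)
      (fun n => curve_lip (hs n).dvb (fun t => habd (hd n t).2.1 (hd n t).1)) hb' hvb'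
    dc := lim_deriv (fun n => (hs n).dc)
      (fun n => curve_lip (hs n).dvc (fun t => habd (hd n t).2.2 (hd n t).2.1)) hc' hvc'
    dva := lim_deriv (fun n => (hs n).dva)
      (fun n s t => halip (hd n s).1 (hd n s).2.2 (hd n t).1 (hd n t).2.2
        (La n s t) (Lb n s t) (Lc n s t)) hva'
      (fun t => hacc (ha' t) (hb' t) (hc' t) (hd' t).1 (hd' t).2.2)
    dvb := lim_deriv (fun n => (hs n).dvb)
      (fun n s t => halip (hd n s).2.1 (hd n s).1 (hd n t).2.1 (hd n t).1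
        (Lb n s t) (Lc n s t) (La n s t)) hvb'
      (fun t => hacc (hb' t) (hc' t) (ha' t) (hd' t).2.1 (hd' t).1)
    dvc := lim_deriv (fun n => (hs n).dvc)
      (fun n s t => halip (hd n s).2.2 (hd n s).2.1 (hd n t).2.2 (hd n t).2.1
        (Lc n s t) (La n s t) (Lb n s t)) hvc'
      (fun t => hacc (hc' t) (ha' t) (hb' t) (hd' t).2.2 (hd' t).2.1) }

end Pool.Agent.H908R3.Vir
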