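import Pool.Agent.H908R3.Vir.Exact

set_option autoImplicit false

namespace Pool.Agent.H908R3.Vir

open Complex Filter Topology

lemma lagrange_id (p w : ℂ) : dot p w ^ 2 = dot p p * dot w w - crs p w ^ 2 := by
  unfold dot crs; ring

lemma coll_vel {a b c va vb vc : ℂ} (hs : a + b + c = 0) (hsv : va + vb + vc = 0)
    (hJ : crs a va + crs b vb + crs c vc = 0) (hab : b - a ≠ 0)
    (hD : crs (b - a) (c - a) = 0)
    (hD1 : crs (vb - va) (c - a) + crs (b - a) (vc - va) = 0) : crs (b - a) (vb - va) = 0 := by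
  have h1 := congrArg Complex.re hs
  have h2 := congrArg Complex.im hs
  have h3 := congrArg Complex.re hsv
  have h4 := congrArg Complex.im hsv
  simp only [add_re, add_im, zero_re, zero_im] at h1 h2 h3 h4
  obtain ⟨u1, hu1⟩ : ∃ t, t = b.re - a.re := ⟨_, rfl⟩
  obtain ⟨u2, hu2⟩ : ∃ t, t = b.im - a.im := ⟨_, rfl⟩
  obtain ⟨a1, ha1⟩ : ∃ t, t = vb.re - va.re := ⟨_, rfl⟩
  obtain ⟨a2, ha2⟩ : ∃ t, t = vb.im - va.im := ⟨_, rfl⟩
  have ear : a.re = (- c.re - u1) / 2 := by linarith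
  have ebr : b.re = (- c.re + u1) / 2 := by linarith
  have eai : a.im = (- c.im - u2) / 2 := by linarith
  have ebi : b.im = (- c.im + u2) / 2 := by linarith
  have far : va.re = (- vc.re - a1) / 2 := by linarith
  have fbr : vb.re = (- vc.re + a1) / 2 := by linarith
  have fai : va.im = (- vc.im - a2) / 2 := by linarith
  have fbi : vb.im = (- vc.im + a2) / 2 := by linarith
  have hn : 0 < u1 ^ 2 + u2 ^ 2 := by
    rcases eq_or_ne u1 0 with h0 | h0
    · rcases eq_or_ne u2 0 with h1 | h1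
      · exfalso; apply hab
        apply Complex.ext
        · simp only [sub_re, zero_re]; linarith
        · simp only [sub_im, zero_im]; linarith
      · positivity
    · positivity
  simp only [crs, sub_re, sub_im, ear, ebr, eai, ebi, far, fbr, fai, fbi] at hJ hD hD1 ⊢
  have e1 : u1 * c.im - u2 * c.re = 0 := by linear_combination (2 / 3) * hD
  have e2 : (a1 * c.im - a2 * c.re) + (u1 * vc.im - u2 * vc.re) = 0 := by
    linear_combination (2 / 3) * hD1
  have e3 : (u1 * a2 - u2 * a1) + 3 * (c.re * vc.im - c.im * vc.re) = 0 := by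
    linear_combination 2 * hJ
  obtain ⟨τ, hτ⟩ : ∃ τ, τ = (u1 * c.re + u2 * c.im) / (u1 ^ 2 + u2 ^ 2) := ⟨_, rfl⟩
  have ec1 : c.re = τ * u1 := by
    rw [hτ]; field_simp; linear_combination -u2 * e1
  have ec2 : c.im = τ * u2 := by
    rw [hτ]; field_simp; linear_combination u1 * e1
  rw [ec1, ec2] at e2 e3
  have e4 : (u1 * vc.im - u2 * vc.re) = τ * (u1 * a2 - u2 * a1) := by linear_combination e2
  have e5 : (1 + 3 * τ ^ 2) * (u1 * a2 - u2 * a1) = 0 := by
    linear_combination e3 - 3 * τ * e4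
  have e6 : (u1 * a2 - u2 * a1) = 0 := by
    rcases mul_eq_zero.1 e5 with h | h
    · exfalso
      have : 0 < 1 + 3 * τ ^ 2 := by positivity
      linarith
    · exact h
  linear_combination e6

/-- sum of the forcing terms -/
lemma force_static (m : ℝ) (a b c : ℂ) :
    m * (dot (b - a) (acc m b c a - acc m a b c) / ‖b - a‖ ^ 3
      + dot (c - b) (acc m c a b - acc m b c a) / ‖c - b‖ ^ 3
      + dot (a - c) (acc m a b c - acc m c a b) / ‖a - c‖ ^ 3)
      = - (dot (acc m a b c) (acc m a b c) + dot (acc m b c a) (acc m b c a)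
        + dot (acc m c a b) (acc m c a b)) := by
  unfold acc
  rw [norm_sub_rev a b, norm_sub_rev c a, norm_sub_rev b c]
  simp only [dot, sub_re, sub_im, add_re, add_im, real_smul, mul_re, mul_im, ofReal_re, ofReal_im]
  ring

namespace Exact

variable {m e I0 : ℝ} {a b c va vb vc : ℝ → ℂ}

/-- not all configurations are collinear -/
lemma not_coll (h : Exact m e I0 a b c va vb vc)
    (hD : ∀ t, crs (b t - a t) (c t - a t) = 0) : False := by
  have hD1 : crs (vb 0 - va 0) (c 0 - a 0) + crs (b 0 - a 0) (vc 0 - va 0) = 0 := by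
    have h1 := h.dD 0
    have h2 : (fun s => crs (b s - a s) (c s - a s)) = fun _ => (0:ℝ) := by
      funext s; exact hD s
    rw [h2] at h1
    exact h1.unique (hasDerivAt_const 0 0)
  have hs := h.sum 0
  have hsv := h.sumv 0
  have hJ := h.hJ 0
  have c3 := coll_vel hs hsv hJ (h.ab 0) (hD 0) hD1
  have hD0 := hD 0
  have c1 : crs (c 0 - b 0) (vc 0 - vb 0) = 0 := by
    refine coll_vel (a := b 0) (b := c 0) (c := a 0) (va := vb 0) (vb := vc 0) (vc := va 0)
      (by rw [← hs]; ring) (by rw [← hsv]; ring) (by linarith) (h.bc 0) ?_ ?_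
    · simp only [crs, sub_re, sub_im] at hD0 ⊢
      linarith
    · simp only [crs, sub_re, sub_im] at hD1 ⊢
      linarith
  have c2 : crs (a 0 - c 0) (va 0 - vc 0) = 0 := by
    refine coll_vel (a := c 0) (b := a 0) (c := b 0) (va := vc 0) (vb := va 0) (vc := vb 0)
      (by rw [← hs]; ring) (by rw [← hsv]; ring) (by linarith) (h.ca 0) ?_ ?_
    · simp only [crs, sub_re, sub_im] at hD0 ⊢
      linarith
    · simp only [crs, sub_re, sub_im] at hD1 ⊢
      linarith
  have hU2 := h.U2 0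
  have hf := force_static m (a 0) (b 0) (c 0)
  have hv := Sol.virial_static m (a 0) (b 0) (c 0) (h.ab 0) (h.bc 0) (h.ca 0)
  have hU := h.hU 0
  have he := h.Upos
  have hm := h.mpos
  have r3 : 0 < ‖b 0 - a 0‖ := norm_pos_iff.2 (h.ab 0)
  have r1 : 0 < ‖c 0 - b 0‖ := norm_pos_iff.2 (h.bc 0)
  have r2 : 0 < ‖a 0 - c 0‖ := norm_pos_iff.2 (h.ca 0)
  have hpair : ∀ (p w α : ℂ), 0 < ‖p‖ → crs p w = 0 →
      pairDD p w α ≤ dot p α / ‖p‖ ^ 3 := by
    intro p w α hp hc
    unfold pairDD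
    rw [lagrange_id, hc, dot_self p]
    have e1 : (dot w w + dot p α) / ‖p‖ ^ 3 - 3 * (‖p‖ ^ 2 * dot w w - 0 ^ 2) / ‖p‖ ^ 5
        = dot p α / ‖p‖ ^ 3 - 2 * dot w w / ‖p‖ ^ 3 := by
      field_simp
      ring
    rw [e1]
    have : 0 ≤ 2 * dot w w / ‖p‖ ^ 3 := by
      have := dot_self_nonneg w
      positivity
    linarith
  have k3 := hpair (b 0 - a 0) (vb 0 - va 0)
    (acc m (b 0) (c 0) (a 0) - acc m (a 0) (b 0) (c 0)) r3 c3
  have k1 := hpair (c 0 - b 0) (vc 0 - vb 0)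
    (acc m (c 0) (a 0) (b 0) - acc m (b 0) (c 0) (a 0)) r1 c1
  have k2 := hpair (a 0 - c 0) (va 0 - vc 0)
    (acc m (a 0) (b 0) (c 0) - acc m (c 0) (a 0) (b 0)) r2 c2
  have hsum : 0 ≤ dot (b 0 - a 0) (acc m (b 0) (c 0) (a 0) - acc m (a 0) (b 0) (c 0)) / ‖b 0 - a 0‖ ^ 3
      + dot (c 0 - b 0) (acc m (c 0) (a 0) (b 0) - acc m (b 0) (c 0) (a 0)) / ‖c 0 - b 0‖ ^ 3
      + dot (a 0 - c 0) (acc m (a 0) (b 0) (c 0) - acc m (c 0) (a 0) (b 0)) / ‖a 0 - c 0‖ ^ 3 := by
    linarith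
  have hz : dot (acc m (a 0) (b 0) (c 0)) (acc m (a 0) (b 0) (c 0))
      + dot (acc m (b 0) (c 0) (a 0)) (acc m (b 0) (c 0) (a 0))
      + dot (acc m (c 0) (a 0) (b 0)) (acc m (c 0) (a 0) (b 0)) ≤ 0 := by
    have := mul_nonneg hm.le hsum
    linarith
  have z : ∀ x : ℂ, dot x x ≤ 0 → x = 0 := by
    intro x hx
    rw [dot_self] at hx
    have : ‖x‖ = 0 := by nlinarith [norm_nonneg x]
    exact norm_eq_zero.1 this
  have n1 := dot_self_nonneg (acc m (a 0) (b 0) (c 0))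
  have n2 := dot_self_nonneg (acc m (b 0) (c 0) (a 0))
  have n3 := dot_self_nonneg (acc m (c 0) (a 0) (b 0))
  have z1 := z _ (show dot (acc m (a 0) (b 0) (c 0)) (acc m (a 0) (b 0) (c 0)) ≤ 0 by linarith)
  have z2 := z _ (show dot (acc m (b 0) (c 0) (a 0)) (acc m (b 0) (c 0) (a 0)) ≤ 0 by linarith)
  have z3 := z _ (show dot (acc m (c 0) (a 0) (b 0)) (acc m (c 0) (a 0) (b 0)) ≤ 0 by linarith)
  rw [z1, z2, z3] at hv
  simp only [dot, zero_re, zero_im, mul_zero, add_zero] at hv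
  linarith

/-- bounds -/
lemma bounds (h : Exact m e I0 a b c va vb vc) (t : ℝ) :
    (m / (2 * e) ≤ ‖b t - a t‖ ∧ m / (2 * e) ≤ ‖c t - b t‖ ∧ m / (2 * e) ≤ ‖a t - c t‖) ∧
    (‖va t‖ ≤ √(2 * e) ∧ ‖vb t‖ ≤ √(2 * e) ∧ ‖vc t‖ ≤ √(2 * e)) ∧
    (‖a t‖ ≤ √I0 ∧ ‖b t‖ ≤ √I0 ∧ ‖c t‖ ≤ √I0) := by
  have hU := h.hU t
  have hK := h.hK t
  have hI := h.hI t
  have he := h.Upos
  have hm := h.mpos
  have r3 : 0 < ‖b t - a t‖ := norm_pos_iff.2 (h.ab t)
  have r1 : 0 < ‖c t - b t‖ := norm_pos_iff.2 (h.bc t)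
  have r2 : 0 < ‖a t - c t‖ := norm_pos_iff.2 (h.ca t)
  unfold U at hU
  rw [dot_self, dot_self, dot_self] at hK hI
  have p3 : 0 < 1 / ‖b t - a t‖ := by positivity
  have p1 : 0 < 1 / ‖c t - b t‖ := by positivity
  have p2 : 0 < 1 / ‖a t - c t‖ := by positivity
  have key : ∀ r : ℝ, 0 < r → m * (1 / r) ≤ 2 * e → m / (2 * e) ≤ r := by
    intro r hr h1
    rw [div_le_iff₀ (by positivity)]
    have : m * (1 / r) * r = m := by field_simp
    nlinarith
  refine ⟨⟨key _ r3 ?_, key _ r1 ?_, key _ r2 ?_⟩, ⟨?_, ?_, ?_⟩, ⟨?_, ?_, ?_⟩⟩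
  · nlinarith
  · nlinarith
  · nlinarith
  · apply Real.le_sqrt_of_sq_le; nlinarith [sq_nonneg ‖va t‖, sq_nonneg ‖vb t‖, sq_nonneg ‖vc t‖]
  · apply Real.le_sqrt_of_sq_le; nlinarith [sq_nonneg ‖va t‖, sq_nonneg ‖vb t‖, sq_nonneg ‖vc t‖]
  · apply Real.le_sqrt_of_sq_le; nlinarith [sq_nonneg ‖va t‖, sq_nonneg ‖vb t‖, sq_nonneg ‖vc t‖]
  · apply Real.le_sqrt_of_sq_le; nlinarith [sq_nonneg ‖a t‖, sq_nonneg ‖b t‖, sq_nonneg ‖c t‖]
  · apply Real.le_sqrt_of_sq_le; nlinarith [sq_nonneg ‖a t‖, sq_nonneg ‖b t‖, sq_nonneg ‖c t‖]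
  · apply Real.le_sqrt_of_sq_le; nlinarith [sq_nonneg ‖a t‖, sq_nonneg ‖b t‖, sq_nonneg ‖c t‖]

end Exact

section limits

variable {F : Filter ℕ}

lemma tendsto_dot {x y : ℕ → ℂ} {x' y' : ℂ} (hx : Tendsto x F (𝓝 x')) (hy : Tendsto y F (𝓝 y')) :
    Tendsto (fun n => dot (x n) (y n)) F (𝓝 (dot x' y')) := by
  unfold dot
  have h1 := (Complex.continuous_re.tendsto x').comp hx
  have h2 := (Complex.continuous_im.tendsto x').comp hx
  have h3 := (Complex.continuous_re.tendsto y').comp hy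
  have h4 := (Complex.continuous_im.tendsto y').comp hy
  exact (h1.mul h3).add (h2.mul h4)

lemma tendsto_crs {x y : ℕ → ℂ} {x' y' : ℂ} (hx : Tendsto x F (𝓝 x')) (hy : Tendsto y F (𝓝 y')) :
    Tendsto (fun n => crs (x n) (y n)) F (𝓝 (crs x' y')) := by
  unfold crs
  have h1 := (Complex.continuous_re.tendsto x').comp hx
  have h2 := (Complex.continuous_im.tendsto x').comp hx
  have h3 := (Complex.continuous_re.tendsto y').comp hy
  have h4 := (Complex.continuous_im.tendsto y').comp hy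
  exact (h1.mul h4).sub (h2.mul h3)

lemma tendsto_U {m : ℝ} {a b c : ℕ → ℂ} {a' b' c' : ℂ} (ha : Tendsto a F (𝓝 a'))
    (hb : Tendsto b F (𝓝 b')) (hc : Tendsto c F (𝓝 c')) (h3 : b' - a' ≠ 0) (h1 : c' - b' ≠ 0)
    (h2 : a' - c' ≠ 0) :
    Tendsto (fun n => U m (a n) (b n) (c n)) F (𝓝 (U m a' b' c')) := by
  unfold U
  have r3 : ‖b' - a'‖ ≠ 0 := (norm_pos_iff.2 h3).ne'
  have r1 : ‖c' - b'‖ ≠ 0 := (norm_pos_iff.2 h1).ne'
  have r2 : ‖a' - c'‖ ≠ 0 := (norm_pos_iff.2 h2).ne'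
  exact (((tendsto_const_nhds.div (hb.sub ha).norm r3).add
    (tendsto_const_nhds.div (hc.sub hb).norm r1)).add
    (tendsto_const_nhds.div (ha.sub hc).norm r2)).const_mul m

end limits

/-- **Saari type theorem**: there is no solution with constant force function, constant moment of
inertia and zero angular momentum. -/
theorem no_exact {m e I0 : ℝ} {a b c va vb vc : ℝ → ℂ} (h : Exact m e I0 a b c va vb vc) :
    False := by
  set f : ℝ → ℝ := fun t => crs (b t - a t) (c t - a t) ^ 2 with hf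
  have hbdd : BddAbove (Set.range f) := by
    refine ⟨((2 * √I0) ^ 2 * (2 * √I0) ^ 2), ?_⟩
    rintro _ ⟨t, rfl⟩
    obtain ⟨-, -, ha, hb, hc⟩ := h.bounds t
    have h1 : ‖b t - a t‖ ≤ 2 * √I0 := (norm_sub_le _ _).trans (by linarith)
    have h2 : ‖c t - a t‖ ≤ 2 * √I0 := (norm_sub_le _ _).trans (by linarith)
    have h3 := lagrange_id (b t - a t) (c t - a t)
    have h4 := sq_nonneg (dot (b t - a t) (c t - a t))
    simp only [hf]
    calc crs (b t - a t) (c t - a t) ^ 2 ≤ dot (b t - a t) (b t - a t) * dot (c t - a t) (c t - a t) := by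
          linarith
      _ = ‖b t - a t‖ ^ 2 * ‖c t - a t‖ ^ 2 := by rw [dot_self, dot_self]
      _ ≤ _ := by gcongr
  obtain ⟨u, hu1, hu2, hu3⟩ := exists_seq_tendsto_sSup (Set.range_nonempty f) hbdd
  choose τ hτ using hu3
  have he := h.Upos
  have hm := h.mpos
  obtain ⟨a', b', c', va', vb', vc', ha, hb, hc, hva, hvb, hvc, hd, hsol⟩ :=
    exists_limit (m := m) (δ := m / (2 * e)) (M := √(2 * e)) (R := √I0) hm (by positivity)
      (a := fun n t => a (τ n + t)) (b := fun n t => b (τ n + t)) (c := fun n t => c (τ n + t))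
      (va := fun n t => va (τ n + t)) (vb := fun n t => vb (τ n + t)) (vc := fun n t => vc (τ n + t))
      (fun n => h.toSol.shift (τ n)) (fun n t => (h.bounds _).1) (fun n t => (h.bounds _).2.1)
      (fun n => (h.bounds _).2.2)
  have hex : Exact m e I0 a' b' c' va' vb' vc' := {
    toSol := hsol
    hU := fun t => by
      have h1 := tendsto_U (m := m) (ha t) (hb t) (hc t) (hsol.ab t) (hsol.bc t) (hsol.ca t)
      have h2 : (fun n => U m (a (τ n + t)) (b (τ n + t)) (c (τ n + t))) = fun _ => 2 * e := by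
        funext n; exact h.hU _
      rw [h2] at h1
      exact (tendsto_nhds_unique h1 tendsto_const_nhds)
    hK := fun t => by
      have h1 := ((tendsto_dot (hva t) (hva t)).add (tendsto_dot (hvb t) (hvb t))).add
        (tendsto_dot (hvc t) (hvc t))
      simp only [h.hK] at h1
      exact (tendsto_nhds_unique h1 tendsto_const_nhds)
    hI := fun t => by
      have h1 := ((tendsto_dot (ha t) (ha t)).add (tendsto_dot (hb t) (hb t))).add
        (tendsto_dot (hc t) (hc t))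
      simp only [h.hI] at h1
      exact (tendsto_nhds_unique h1 tendsto_const_nhds)
    hJ := fun t => by
      have h1 := ((tendsto_crs (ha t) (hva t)).add (tendsto_crs (hb t) (hvb t))).add
        (tendsto_crs (hc t) (hvc t))
      simp only [h.hJ] at h1
      exact (tendsto_nhds_unique h1 tendsto_const_nhds) }
  set S := sSup (Set.range f) with hS
  have hDt : ∀ t, Tendsto (fun n => f (τ n + t)) (hyperfilter ℕ : Filter ℕ)
      (𝓝 (crs (b' t - a' t) (c' t - a' t) ^ 2)) := fun t =>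
    (tendsto_crs ((hb t).sub (ha t)) ((hc t).sub (ha t))).pow 2
  have hle : ∀ t, crs (b' t - a' t) (c' t - a' t) ^ 2 ≤ S := fun t =>
    le_of_tendsto (hDt t) (Eventually.of_forall fun n => le_csSup hbdd ⟨_, rfl⟩)
  have h0 : crs (b' 0 - a' 0) (c' 0 - a' 0) ^ 2 = S := by
    have h1 := hDt 0
    simp only [add_zero, hτ] at h1
    have h2 : Tendsto u (hyperfilter ℕ : Filter ℕ) (𝓝 S) :=
      hu2.mono_left Nat.hyperfilter_le_atTop
    exact tendsto_nhds_unique h1 h2
  by_cases hz : crs (b' 0 - a' 0) (c' 0 - a' 0) = 0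
  · rw [hz] at h0
    refine h.not_coll (fun t => ?_)
    have h1 : f t ≤ S := le_csSup hbdd ⟨_, rfl⟩
    rw [← h0] at h1
    have h2 : f t = crs (b t - a t) (c t - a t) ^ 2 := rfl
    nlinarith [sq_nonneg (crs (b t - a t) (c t - a t))]
  · refine hex.crit 0 hz ?_
    have hmax : IsLocalMax (fun t => crs (b' t - a' t) (c' t - a' t) ^ 2) 0 :=
      Eventually.of_forall fun t => by
        simp only
        rw [h0]; exact hle t
    have hder : HasDerivAt (fun t => crs (b' t - a' t) (c' t - a' t) ^ 2)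
      ((2:ℕ) * crs (b' 0 - a' 0) (c' 0 - a' 0) ^ (2 - 1) *
        (crs (vb' 0 - va' 0) (c' 0 - a' 0) + crs (b' 0 - a' 0) (vc' 0 - va' 0))) 0 :=
      (hex.dD 0).pow 2
    have := hmax.hasDerivAt_eq_zero hder
    rcases mul_eq_zero.1 this with h1 | h1
    · exfalso
      apply hz
      simpa using h1
    · exact h1

end Pool.Agent.H908R3.Vir
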