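import Pool.Agent.H908R3.Vir.Calc

set_option autoImplicit false

namespace Pool.Agent.H908R3.Vir

open Complex Filter Topology

/-- solutions of the planar equal mass three body problem, centre of mass at the origin -/
structure Sol (m : ℝ) (a b c va vb vc : ℝ → ℂ) : Prop where
  mpos : 0 < m
  ab : ∀ t, b t - a t ≠ 0
  bc : ∀ t, c t - b t ≠ 0
  ca : ∀ t, a t - c t ≠ 0
  sum : ∀ t, a t + b t + c t = 0
  da : ∀ t, HasDerivAt a (va t) t
  db : ∀ t, HasDerivAt b (vb t) t
  dc : ∀ t, HasDerivAt c (vc t) t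
  dva : ∀ t, HasDerivAt va (acc m (a t) (b t) (c t)) t
  dvb : ∀ t, HasDerivAt vb (acc m (b t) (c t) (a t)) t
  dvc : ∀ t, HasDerivAt vc (acc m (c t) (a t) (b t)) t

namespace Sol

variable {m : ℝ} {a b c va vb vc : ℝ → ℂ}

lemma rot (h : Sol m a b c va vb vc) : Sol m b c a vb vc va where
  mpos := h.mpos
  ab := h.bc
  bc := h.ca
  ca := h.ab
  sum := fun t => by rw [← h.sum t]; ring
  da := h.db
  db := h.dc
  dc := h.da
  dva := h.dvb
  dvb := h.dvc
  dvc := h.dva

lemma shift (h : Sol m a b c va vb vc) (s : ℝ) :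
    Sol m (fun t => a (s + t)) (fun t => b (s + t)) (fun t => c (s + t))
      (fun t => va (s + t)) (fun t => vb (s + t)) (fun t => vc (s + t)) where
  mpos := h.mpos
  ab := fun t => h.ab _
  bc := fun t => h.bc _
  ca := fun t => h.ca _
  sum := fun t => h.sum _
  da := fun t => (h.da _).comp_const_add s t
  db := fun t => (h.db _).comp_const_add s t
  dc := fun t => (h.dc _).comp_const_add s t
  dva := fun t => (h.dva _).comp_const_add s t
  dvb := fun t => (h.dvb _).comp_const_add s t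
  dvc := fun t => (h.dvc _).comp_const_add s t

lemma sumv (h : Sol m a b c va vb vc) (t : ℝ) : va t + vb t + vc t = 0 := by
  have h1 : HasDerivAt (fun s => a s + b s + c s) (va t + vb t + vc t) t :=
    ((h.da t).add (h.db t)).add (h.dc t)
  have h2 : (fun s => a s + b s + c s) = fun _ => (0 : ℂ) := by
    funext s; exact h.sum s
  rw [h2] at h1
  exact h1.unique (hasDerivAt_const t (0:ℂ))

/-- derivative of the reciprocal distance -/
lemma hasDerivAt_inv {p : ℝ → ℂ} {w : ℂ} {t : ℝ} (hp : HasDerivAt p w t) (h0 : p t ≠ 0) :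
    HasDerivAt (fun s => 1 / ‖p s‖) (- (dot (p t) w / ‖p t‖ ^ 3)) t := by
  have h1 := hasDerivAt_norm' hp h0
  have hpos : 0 < ‖p t‖ := norm_pos_iff.2 h0
  have h2 : HasDerivAt (fun s => (‖p s‖)⁻¹) (-(dot (p t) w / ‖p t‖) / ‖p t‖ ^ 2) t := h1.inv hpos.ne'
  simp only [one_div]
  refine h2.congr_deriv ?_
  field_simp

/-- derivative of `p . w / |p|^3` -/
lemma hasDerivAt_quot {p w : ℝ → ℂ} {α : ℂ} {t : ℝ} (hp : HasDerivAt p (w t) t)
    (hw : HasDerivAt w α t) (h0 : p t ≠ 0) :
    HasDerivAt (fun s => dot (p s) (w s) / ‖p s‖ ^ 3) (pairDD (p t) (w t) α) t := by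
  have h1 := hasDerivAt_norm' hp h0
  have hpos : 0 < ‖p t‖ := norm_pos_iff.2 h0
  have h2 : HasDerivAt (fun s => ‖p s‖ ^ 3) ((3:ℕ) * ‖p t‖ ^ (3 - 1) * (dot (p t) (w t) / ‖p t‖)) t :=
    h1.pow 3
  have h3 := (hasDerivAt_dot hp hw).div h2 (by positivity)
  refine h3.congr_deriv ?_
  unfold pairDD
  field_simp
  push_cast
  ring

lemma dU (h : Sol m a b c va vb vc) (t : ℝ) :
    HasDerivAt (fun s => U m (a s) (b s) (c s))
      (m * (-(dot (b t - a t) (vb t - va t) / ‖b t - a t‖ ^ 3)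
        + -(dot (c t - b t) (vc t - vb t) / ‖c t - b t‖ ^ 3)
        + -(dot (a t - c t) (va t - vc t) / ‖a t - c t‖ ^ 3))) t := by
  have h1 := hasDerivAt_inv ((h.db t).sub (h.da t)) (h.ab t)
  have h2 := hasDerivAt_inv ((h.dc t).sub (h.db t)) (h.bc t)
  have h3 := hasDerivAt_inv ((h.da t).sub (h.dc t)) (h.ca t)
  exact ((h1.add h2).add h3).const_mul m

lemma dG (h : Sol m a b c va vb vc) (t : ℝ) :
    HasDerivAt (fun t => dot (b t - a t) (vb t - va t) / ‖b t - a t‖ ^ 3
        + dot (c t - b t) (vc t - vb t) / ‖c t - b t‖ ^ 3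
        + dot (a t - c t) (va t - vc t) / ‖a t - c t‖ ^ 3)
      (pairDD (b t - a t) (vb t - va t) (acc m (b t) (c t) (a t) - acc m (a t) (b t) (c t))
    + pairDD (c t - b t) (vc t - vb t) (acc m (c t) (a t) (b t) - acc m (b t) (c t) (a t))
    + pairDD (a t - c t) (va t - vc t) (acc m (a t) (b t) (c t) - acc m (c t) (a t) (b t))) t := by
  have h1 := hasDerivAt_quot (p := fun t => b t - a t) (w := fun t => vb t - va t)
    ((h.db t).sub (h.da t)) ((h.dvb t).sub (h.dva t)) (h.ab t)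
  have h2 := hasDerivAt_quot (p := fun t => c t - b t) (w := fun t => vc t - vb t)
    ((h.dc t).sub (h.db t)) ((h.dvc t).sub (h.dvb t)) (h.bc t)
  have h3 := hasDerivAt_quot (p := fun t => a t - c t) (w := fun t => va t - vc t)
    ((h.da t).sub (h.dc t)) ((h.dva t).sub (h.dvc t)) (h.ca t)
  exact (h1.add h2).add h3

/-- moment of inertia -/
lemma dI (h : Sol m a b c va vb vc) (t : ℝ) :
    HasDerivAt (fun s => dot (a s) (a s) + dot (b s) (b s) + dot (c s) (c s))
      (2 * (dot (a t) (va t) + dot (b t) (vb t) + dot (c t) (vc t))) t := by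
  have h1 := hasDerivAt_dot (h.da t) (h.da t)
  have h2 := hasDerivAt_dot (h.db t) (h.db t)
  have h3 := hasDerivAt_dot (h.dc t) (h.dc t)
  refine ((h1.add h2).add h3).congr_deriv ?_
  rw [dot_comm' (va t), dot_comm' (vb t), dot_comm' (vc t)]
  ring

lemma virial_static (m : ℝ) (a b c : ℂ) (h3 : b - a ≠ 0) (h1 : c - b ≠ 0) (h2 : a - c ≠ 0) :
    dot a (acc m a b c) + dot b (acc m b c a) + dot c (acc m c a b) = - U m a b c := by
  have r3 : 0 < ‖b - a‖ := norm_pos_iff.2 h3
  have r1 : 0 < ‖c - b‖ := norm_pos_iff.2 h1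
  have r2 : 0 < ‖a - c‖ := norm_pos_iff.2 h2
  have e1 : dot a (acc m a b c) + dot b (acc m b c a) + dot c (acc m c a b) =
      - ((m / ‖b - a‖ ^ 3) * dot (b - a) (b - a) + (m / ‖c - b‖ ^ 3) * dot (c - b) (c - b)
        + (m / ‖a - c‖ ^ 3) * dot (a - c) (a - c)) := by
    unfold acc
    rw [norm_sub_rev a b, norm_sub_rev c a, norm_sub_rev b c]
    simp only [dot, sub_re, sub_im, add_re, add_im, real_smul, mul_re, mul_im, ofReal_re, ofReal_im]
    ring
  rw [e1, dot_self, dot_self, dot_self]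
  unfold U
  field_simp

lemma ddI (h : Sol m a b c va vb vc) (t : ℝ) :
    HasDerivAt (fun t => 2 * (dot (a t) (va t) + dot (b t) (vb t) + dot (c t) (vc t)))
      (2 * (dot (va t) (va t) + dot (vb t) (vb t) + dot (vc t) (vc t) - U m (a t) (b t) (c t))) t := by
  have h1 := hasDerivAt_dot (h.da t) (h.dva t)
  have h2 := hasDerivAt_dot (h.db t) (h.dvb t)
  have h3 := hasDerivAt_dot (h.dc t) (h.dvc t)
  refine (((h1.add h2).add h3).const_mul 2).congr_deriv ?_
  have := virial_static m (a t) (b t) (c t) (h.ab t) (h.bc t) (h.ca t)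
  linarith

/-- derivative of twice the signed area -/
lemma dD (h : Sol m a b c va vb vc) (t : ℝ) :
    HasDerivAt (fun s => crs (b s - a s) (c s - a s))
      (crs (vb t - va t) (c t - a t) + crs (b t - a t) (vc t - va t)) t :=
  hasDerivAt_crs ((h.db t).sub (h.da t)) ((h.dc t).sub (h.da t))

lemma area_static (m : ℝ) (a b c : ℂ) :
    crs (acc m b c a - acc m a b c) (c - a) + crs (b - a) (acc m c a b - acc m a b c)
      = - (2 * (m / ‖b - a‖ ^ 3 + m / ‖c - b‖ ^ 3 + m / ‖a - c‖ ^ 3)) * crs (b - a) (c - a) := by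
  unfold acc
  rw [norm_sub_rev a b, norm_sub_rev c a, norm_sub_rev b c]
  simp only [crs, sub_re, sub_im, add_re, add_im, real_smul, mul_re, mul_im, ofReal_re, ofReal_im]
  ring

/-- the key kinematic identity at zero angular momentum and stationary moment of inertia -/
lemma kin_static {a b c va vb vc : ℂ} (hs : a + b + c = 0) (hsv : va + vb + vc = 0)
    (hI : dot a va + dot b vb + dot c vc = 0) (hJ : crs a va + crs b vb + crs c vc = 0) :
    dot (b - a) (b - a) * crs (vb - va) (vc - va)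
      = - (3 * dot vc vc) * crs (b - a) (c - a) := by
  have h1 := congrArg Complex.re hs
  have h2 := congrArg Complex.im hs
  have h3 := congrArg Complex.re hsv
  have h4 := congrArg Complex.im hsv
  simp only [add_re, add_im, zero_re, zero_im] at h1 h2 h3 h4
  obtain ⟨u1, hu1⟩ : ∃ t, t = b.re - a.re := ⟨_, rfl⟩
  obtain ⟨u2, hu2⟩ : ∃ t, t = b.im - a.im := ⟨_, rfl⟩
  obtain ⟨a1, ha1⟩ : ∃ t, t = vb.re - va.re := ⟨_, rfl⟩
  obtain ⟨a2, ha2⟩ : ∃ t, t = vb.im - va.im := ⟨_, rfl⟩
  have ear : a.re = (- c.re - u1) / 2 := by linarith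
  have ebr : b.re = (- c.re + u1) / 2 := by linarith
  have eai : a.im = (- c.im - u2) / 2 := by linarith
  have ebi : b.im = (- c.im + u2) / 2 := by linarith
  have far : va.re = (- vc.re - a1) / 2 := by linarith
  have fbr : vb.re = (- vc.re + a1) / 2 := by linarith
  have fai : va.im = (- vc.im - a2) / 2 := by linarith
  have fbi : vb.im = (- vc.im + a2) / 2 := by linarith
  simp only [dot, crs, sub_re, sub_im, ear, ebr, eai, ebi, far, fbr, fai, fbi] at hI hJ ⊢
  -- hI : u.a + 3 z.b = 0 (times 1/2), hJ : u x a + 3 z x b = 0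
  linear_combination 3 * (u1 * vc.im - u2 * vc.re) * hI - 3 * (u1 * vc.re + u2 * vc.im) * hJ

lemma ddD (h : Sol m a b c va vb vc) (t : ℝ) :
    HasDerivAt (fun t => crs (vb t - va t) (c t - a t) + crs (b t - a t) (vc t - va t))
      (- (2 * (m / ‖b t - a t‖ ^ 3 + m / ‖c t - b t‖ ^ 3 + m / ‖a t - c t‖ ^ 3))
        * crs (b t - a t) (c t - a t) + 2 * crs (vb t - va t) (vc t - va t)) t := by
  have h1 := hasDerivAt_crs ((h.dvb t).sub (h.dva t)) ((h.dc t).sub (h.da t))
  have h2 := hasDerivAt_crs ((h.db t).sub (h.da t)) ((h.dvc t).sub (h.dva t))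
  refine (h1.add h2).congr_deriv ?_
  have := area_static m (a t) (b t) (c t)
  simp only [Pi.sub_apply] at *
  linarith

end Sol

end Pool.Agent.H908R3.Vir
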