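import Mathlib

/-!
Static (one instant) algebra for the equal mass planar three body problem with zero angular
momentum: constancy of the force function is incompatible with an extremal area.
-/

set_option autoImplicit false

namespace Pool.Agent.H908R3.Vir

/-- Euclidean inner product of two planar vectors. -/
def dot (x y : ℂ) : ℝ := x.re * y.re + x.im * y.im

/-- Cross product of two planar vectors. -/
def crs (x y : ℂ) : ℝ := x.re * y.im - x.im * y.re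

lemma norm_sq_eq (x : ℂ) : ‖x‖ ^ 2 = x.re * x.re + x.im * x.im := by
  rw [← Complex.normSq_eq_norm_sq, Complex.normSq_apply]

/-- isosceles computation (pure real inequality) -/
lemma iso_real {x ρ m M : ℝ} (hx : 0 < x) (hρ : 0 < ρ) (hm : 0 < m) (hlt : x < 2 * ρ)
    (hM : M * (2 * ρ ^ 2 + x ^ 2) = m * (1 / x + 2 / ρ))
    (hV : 25 / 2 ≤ ((2 * ρ ^ 2 + x ^ 2) / 3) * (1 / x + 2 / ρ) ^ 2)
    (hU : 2 * (M * (2 * x ^ 2 + ρ ^ 2) + m * (x ^ 2 / (2 * ρ ^ 3) - 3 / ρ - 1 / (2 * x))) / ρ ^ 3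
      + (M * (4 * ρ ^ 2 - x ^ 2) - m * (x ^ 2 / ρ ^ 3 + 2 / x)) / x ^ 3
      - 3 / 2 * M * (x ^ 2 + 2 * ρ ^ 2) ^ 2 / ρ ^ 5 = 0) : False := by
  -- reduce to the ratio X = x / ρ
  obtain ⟨X, hX⟩ : ∃ X, X = x / ρ := ⟨_, rfl⟩
  have hX0 : 0 < X := by rw [hX]; positivity
  have hX2 : X < 2 := by rw [hX, div_lt_iff₀ hρ]; linarith
  have hxX : x = X * ρ := by rw [hX]; field_simp
  subst hxX
  have hM' : M = m * (1 + 2 * X) / (X * (2 + X ^ 2) * ρ ^ 3) := by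
    have : (2 * ρ ^ 2 + (X * ρ) ^ 2) ≠ 0 := by positivity
    rw [eq_div_iff (by positivity)]
    have h1 : M * (2 * ρ ^ 2 + (X * ρ) ^ 2) * (X * ρ) = m * (1 + 2 * X) := by
      rw [hM]; field_simp
    linear_combination h1
  subst hM'
  have hV' : 25 / 2 * (3 * X ^ 2) ≤ (2 + X ^ 2) * (1 + 2 * X) ^ 2 := by
    have e : ((2 * ρ ^ 2 + (X * ρ) ^ 2) / 3) * (1 / (X * ρ) + 2 / ρ) ^ 2
        = (2 + X ^ 2) * (1 + 2 * X) ^ 2 / (3 * X ^ 2) := by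
      field_simp
    rw [e, le_div_iff₀ (by positivity)] at hV
    linarith
  have hX1 : X < 1 / 2 := by
    by_contra h
    push Not at h
    nlinarith [mul_pos (sub_pos.2 hX2) (show (0:ℝ) < 4 * X ^ 3 + 12 * X ^ 2 - 9 / 2 * X - 1 by
      nlinarith [mul_nonneg (sub_nonneg.2 h) (sub_nonneg.2 h),
        mul_nonneg (mul_nonneg (sub_nonneg.2 h) (sub_nonneg.2 h)) (sub_nonneg.2 h)])]
  have hG : -8 + 3 * X + 10 * X ^ 2 + 20 * X ^ 3 + 4 * X ^ 4 + 8 * X ^ 5 + 3 / 2 * X ^ 6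
      + 2 * X ^ 7 = 0 := by
    have e : 2 * (m * (1 + 2 * X) / (X * (2 + X ^ 2) * ρ ^ 3) * (2 * (X * ρ) ^ 2 + ρ ^ 2)
        + m * ((X * ρ) ^ 2 / (2 * ρ ^ 3) - 3 / ρ - 1 / (2 * (X * ρ)))) / ρ ^ 3
      + (m * (1 + 2 * X) / (X * (2 + X ^ 2) * ρ ^ 3) * (4 * ρ ^ 2 - (X * ρ) ^ 2)
        - m * ((X * ρ) ^ 2 / ρ ^ 3 + 2 / (X * ρ))) / (X * ρ) ^ 3
      - 3 / 2 * (m * (1 + 2 * X) / (X * (2 + X ^ 2) * ρ ^ 3)) * ((X * ρ) ^ 2 + 2 * ρ ^ 2) ^ 2 / ρ ^ 5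
      = - m * (-8 + 3 * X + 10 * X ^ 2 + 20 * X ^ 3 + 4 * X ^ 4 + 8 * X ^ 5 + 3 / 2 * X ^ 6
      + 2 * X ^ 7) / (X ^ 3 * (2 + X ^ 2) * ρ ^ 4) := by
      field_simp
      ring
    rw [e] at hU
    rw [div_eq_zero_iff] at hU
    rcases hU with h | h
    · have := mul_eq_zero.1 h
      rcases this with h | h
      · linarith
      · exact h
    · exfalso
      have : 0 < X ^ 3 * (2 + X ^ 2) * ρ ^ 4 := by positivity
      linarith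
  have b2 : X ^ 2 ≤ 1 / 4 := by nlinarith
  have b3 : X ^ 3 ≤ 1 / 8 := by nlinarith
  have b4 : X ^ 4 ≤ 1 / 16 := by nlinarith [sq_nonneg (X ^ 2)]
  have b5 : X ^ 5 ≤ 1 / 32 := by nlinarith [pow_pos hX0 4]
  have b6 : X ^ 6 ≤ 1 / 64 := by nlinarith [pow_pos hX0 5]
  have b7 : X ^ 7 ≤ 1 / 128 := by nlinarith [pow_pos hX0 6]
  linarith

end Pool.Agent.H908R3.Vir
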